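import Mathlib

/-!
# Project RQ: every precompact abelian Baire group is a quotient of a reflexive precompact Baire group

Statements of the packages.
-/

set_option autoImplicit false

open Filter Topology Pointwise

namespace Pool.Agent.U570.RQ

universe u v w

/-- the circle group, additively; `‖t‖` is the distance of `t` to zero, at most `1/2` -/
abbrev T : Type := UnitAddCircle

/-- total boundedness of an additive group -/
def TB (G : Type u) [AddCommGroup G] [TopologicalSpace G] : Prop :=
  ∀ U ∈ 𝓝 (0 : G), ∃ E : Set G, E.Finite ∧ U + E = Set.univ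

/-- a countable family of infinite sets on which continuous functions oscillate little -/
def Fine (C : Type v) [TopologicalSpace C] : Prop :=
  ∃ V : ℕ → Set C, (∀ s, (V s).Infinite) ∧
    ∀ φ : C → T, Continuous φ → ∀ ε : ℝ, 0 < ε → ∃ s, ∀ x ∈ V s, ∀ y ∈ V s, ‖φ x - φ y‖ ≤ ε

/-- every countable pattern is realised -/
def Rich {A H J : Type*} [AddCommGroup A] [AddCommGroup H] (π : A →+ H) (f : J → (A →+ T)) : Prop :=
  ∀ S : Set J, S.Countable → ∀ (t : J → T) (h : H), ∃ a : A, π a = h ∧ ∀ j ∈ S, f j a = t j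

/-- every homomorphism is realised on every countable set -/
def Full {A J : Type*} [AddCommGroup A] (f : J → (A →+ T)) : Prop :=
  ∀ C : Set A, C.Countable → ∀ χ : A →+ T, ∃ j : J, ∀ a ∈ C, f j a = χ a

/-- the countable chain condition -/
def CCC (X : Type u) [TopologicalSpace X] : Prop :=
  ∀ 𝒰 : Set (Set X), (∀ U ∈ 𝒰, IsOpen U ∧ U.Nonempty) → 𝒰.PairwiseDisjoint id → 𝒰.Countable

/-- package EQ: nearly equicontinuous sets of characters are finite -/
def S_EQ : Prop :=
  ∀ (G : Type u) [AddCommGroup G] [TopologicalSpace G], TB G →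
    ∀ (Y : Type v) (χ : Y → (G →+ T)), Function.Injective χ →
      ∀ U ∈ 𝓝 (0 : G), (∀ y z, ∀ g ∈ U, ‖χ y g - χ z g‖ ≤ 1 / 16) → Finite Y

/-- package F1: a closed infinite set with at most one accumulation point -/
def S_F1 : Prop :=
  ∀ (C : Type v) [TopologicalSpace C] [CompactSpace C] [T2Space C] (F : Set C),
    IsClosed F → F.Infinite →
    (∀ x y : C, AccPt x (𝓟 F) → AccPt y (𝓟 F) → x = y) → Fine C

/-- package F2: Cantor scheme -/
def S_F2 : Prop :=
  ∀ (C : Type v) [TopologicalSpace C] [CompactSpace C] [T2Space C] [Infinite C],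
    (∀ F : Set C, IsClosed F → F.Infinite → ∃ x y : C, x ≠ y ∧ AccPt x (𝓟 F) ∧ AccPt y (𝓟 F)) →
    ∃ (D : Set C) (g : D → (ℕ → Bool)), IsClosed D ∧ Continuous g ∧ Function.Surjective g

/-- package F3: spaces which map onto the Cantor space -/
def S_F3 : Prop :=
  ∀ (D : Type v) [TopologicalSpace D] [CompactSpace D] [T2Space D] (g : D → (ℕ → Bool)),
    Continuous g → Function.Surjective g → Fine D

/-- package BA: compact sets of characters of a totally bounded Baire group are finite -/
def S_BA : Prop :=
  (∀ (C : Type v) [TopologicalSpace C] [CompactSpace C] [T2Space C] [Infinite C], Fine C) →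
  S_EQ.{u, v} →
  ∀ (G : Type u) [AddCommGroup G] [TopologicalSpace G] [IsTopologicalAddGroup G] [BaireSpace G],
    TB G → ∀ (Y : Type v) [TopologicalSpace Y] [CompactSpace Y] [T2Space Y] (χ : Y → (G →+ T)),
      Function.Injective χ → (∀ y, Continuous (χ y)) → (∀ g, Continuous fun y => χ y g) → Finite Y

/-- package CC: totally bounded groups have the countable chain condition -/
def S_CC : Prop :=
  ∀ (G : Type u) [AddCommGroup G] [TopologicalSpace G] [IsTopologicalAddGroup G], TB G → CCC G

/-- package CY: dense open sets contain dense open cylinders over countably many coordinates -/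
def S_CY : Prop :=
  ∀ (H : Type u) [TopologicalSpace H] (J : Type v), CCC (H × (J → T)) →
    ∀ W : Set (H × (J → T)), IsOpen W → Dense W →
      ∃ (S : Set J) (W' : Set (H × (J → T))), S.Countable ∧ W' ⊆ W ∧ IsOpen W' ∧ Dense W' ∧
        ∀ p ∈ W', ∀ q : H × (J → T), q.1 = p.1 → (∀ j ∈ S, q.2 j = p.2 j) → q ∈ W'

/-- package OX: products with second countable Baire spaces -/
def S_OX : Prop :=
  ∀ (X : Type u) (Y : Type v) [TopologicalSpace X] [TopologicalSpace Y] [BaireSpace X]
    [BaireSpace Y] [SecondCountableTopology Y], BaireSpace (X × Y)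

/-- package BR: the matrix group is Baire -/
def S_BR : Prop :=
  S_CY.{u, v} → S_OX.{u, v} →
  ∀ (A : Type u) (H : Type u) (J : Type v) [AddCommGroup A] [AddCommGroup H] [TopologicalSpace H]
    [BaireSpace H] [TopologicalSpace A] (π : A →+ H) (f : J → (A →+ T)),
    IsInducing (fun a : A => ((π a, fun j => f j a) : H × (J → T))) → Rich π f →
    CCC (H × (J → T)) → BaireSpace A

/-- package CA: the index set -/
def S_CA : Prop :=
  ∀ (H : Type u) [Nonempty H], ∃ (E : Type u)
    (q : E → (ℕ → ((ℕ → (E →₀ ℤ)) × (ℕ → T))) × H × (ℕ → T)),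
    ∀ y, ∀ D : Set E, D.Countable → ∃ e : E, e ∉ D ∧ q e = y

/-- package CH: the matrix -/
def S_CH : Prop :=
  S_CA.{u} → ∀ (H : Type u) [AddCommGroup H], ∃ (E : Type u) (π : (E →₀ ℤ) →+ H)
    (f : ((ℕ → (E →₀ ℤ)) × (ℕ → T)) → ((E →₀ ℤ) →+ T)), Rich π f ∧ Full f

/-- package SQ: no sequence of nonzero elements converges to zero at all characters -/
def S_SQ : Prop :=
  ∀ (A : Type u) [AddCommGroup A] (y : ℕ → A), (∀ n, y n ≠ 0) →
    ¬ ∀ χ : A →+ T, Tendsto (fun n => χ (y n)) atTop (𝓝 0)

/-- package CK: infinite countable compact spaces contain convergent sequences -/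
def S_CK : Prop :=
  ∀ (K : Type u) [TopologicalSpace K] [CompactSpace K] [T2Space K] [Countable K] [Infinite K],
    ∃ (x : ℕ → K) (p : K), (∀ n, x n ≠ p) ∧ Tendsto x atTop (𝓝 p)

/-- package GL: compact subsets are finite if characters of countable subgroups extend -/
def S_GL : Prop :=
  S_SQ.{u} → S_CK.{u} →
  ∀ (A : Type u) [AddCommGroup A] [TopologicalSpace A] [IsTopologicalAddGroup A] [T2Space A],
    (∀ C : Set A, C.Countable → ∀ χ : A →+ T, ∃ ψ : A →+ T, Continuous ψ ∧ ∀ a ∈ C, ψ a = χ a) →
    ∀ K : Set A, IsCompact K → K.Finite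

/-- package PW: the topology of a totally bounded Hausdorff abelian group is induced by its
continuous characters -/
def S_PW : Prop :=
  ∀ (G : Type u) [AddCommGroup G] [TopologicalSpace G] [IsTopologicalAddGroup G] [T2Space G],
    TB G → IsInducing (fun (g : G) (χ : {χ : G →+ T // Continuous χ}) => χ.1 g)

/-- reflexivity (the same formula as `Pool.Agent.R821.Reflexive`) -/
def Refl (G : Type u) [CommGroup G] [TopologicalSpace G] : Prop :=
  ∃ α : G ≃ₜ* PontryaginDual (PontryaginDual G), ∀ (g : G) (χ : PontryaginDual G), α g χ = χ g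

/-- package RF: if compact sets in the group and in its dual are finite, the group is reflexive -/
def S_RF : Prop :=
  ∀ (G : Type u) [AddCommGroup G] [TopologicalSpace G] [IsTopologicalAddGroup G] [T2Space G],
    IsInducing (fun (g : G) (χ : {χ : G →+ T // Continuous χ}) => χ.1 g) →
    (∀ K : Set G, IsCompact K → K.Finite) →
    (∀ (Y : Type u) [TopologicalSpace Y] [CompactSpace Y] [T2Space Y] (χ : Y → (G →+ T)),
      Function.Injective χ → (∀ y, Continuous (χ y)) → (∀ g, Continuous fun y => χ y g) →
        Finite Y) →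
    Refl (Multiplicative G)

end Pool.Agent.U570.RQ
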