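import Mathlib
import Pool.Agent.U570.RQ.Stm

/-!
# Project RQ, package BA: compact sets of characters of a totally bounded Baire group are finite
-/

set_option autoImplicit false

open Filter Topology Pointwise

namespace Pool.Agent.U570.RQ

universe u v

/-- package BA -/
theorem t_BA : S_BA.{u, v} := by
  intro hFine hEQ G _ _ _ _ hTB Y _ _ _ χ hinj hcont hpt
  by_contra hfin
  have hinf : Infinite Y := not_finite_iff_infinite.mp hfin
  obtain ⟨V, hV, hosc⟩ := hFine Y
  let A : ℕ → Set G := fun s => {g | ∀ x ∈ V s, ∀ y ∈ V s, ‖χ x g - χ y g‖ ≤ 1 / 32}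
  have hA : ∀ s, A s = {g | ∀ x ∈ V s, ∀ y ∈ V s, ‖χ x g - χ y g‖ ≤ 1 / 32} := fun s => rfl
  have hclosed : ∀ s, IsClosed (A s) := by
    intro s
    have e : A s = ⋂ x ∈ V s, ⋂ y ∈ V s, {g | ‖χ x g - χ y g‖ ≤ 1 / 32} := by
      ext g
      simp [hA]
    rw [e]
    refine isClosed_biInter fun x _ => isClosed_biInter fun y _ => ?_
    exact isClosed_le (((hcont x).sub (hcont y)).norm) continuous_const
  have hunion : ⋃ s, A s = Set.univ := by
    refine Set.eq_univ_of_forall fun g => ?_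
    obtain ⟨s, hs⟩ := hosc (fun y => χ y g) (hpt g) (1 / 32) (by norm_num)
    exact Set.mem_iUnion.mpr ⟨s, hs⟩
  have hne : Nonempty G := ⟨0⟩
  obtain ⟨s, w0, hw0⟩ := nonempty_interior_of_iUnion_of_closed hclosed hunion
  have hU : {g : G | g + w0 ∈ interior (A s)} ∈ 𝓝 (0 : G) := by
    have hc : Continuous fun g : G => g + w0 := continuous_id.add continuous_const
    refine (isOpen_interior.preimage hc).mem_nhds ?_
    simpa using hw0
  have hw0A : w0 ∈ A s := interior_subset hw0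
  have hbd : ∀ y z : V s, ∀ g ∈ {g : G | g + w0 ∈ interior (A s)},
      ‖χ y.1 g - χ z.1 g‖ ≤ 1 / 16 := by
    intro y z g hg
    have h1 : g + w0 ∈ A s := interior_subset hg
    have h2 := h1 y.1 y.2 z.1 z.2
    have h3 := hw0A y.1 y.2 z.1 z.2
    have e : χ y.1 g - χ z.1 g =
        (χ y.1 (g + w0) - χ z.1 (g + w0)) - (χ y.1 w0 - χ z.1 w0) := by
      rw [map_add, map_add]
      abel
    rw [e]
    calc ‖(χ y.1 (g + w0) - χ z.1 (g + w0)) - (χ y.1 w0 - χ z.1 w0)‖
        ≤ ‖χ y.1 (g + w0) - χ z.1 (g + w0)‖ + ‖χ y.1 w0 - χ z.1 w0‖ := norm_sub_le _ _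
      _ ≤ 1 / 32 + 1 / 32 := add_le_add h2 h3
      _ = 1 / 16 := by norm_num
  have hfinV : Finite (V s) := hEQ G hTB (V s) (fun y => χ y.1)
    (fun y z h => Subtype.ext (hinj h)) _ hU hbd
  exact hV s (Set.toFinite (V s))

end Pool.Agent.U570.RQ
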