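import Mathlib
import Pool.Agent.U570.RQ.Stm

/-!
# Project RQ, package BR: the matrix group is Baire
-/

set_option autoImplicit false

open Filter Topology Set

namespace Pool.Agent.U570.RQ

universe u v

/-- open sets of the product contain boxes depending on finitely many coordinates -/
theorem BR_box {H : Type u} [TopologicalSpace H] {J : Type v} {O : Set (H × (J → T))}
    (hO : IsOpen O) {p : H × (J → T)} (hp : p ∈ O) :
    ∃ (U : Set H) (I : Finset J) (w : J → Set T), IsOpen U ∧ p.1 ∈ U ∧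
      (∀ j ∈ I, IsOpen (w j) ∧ p.2 j ∈ w j) ∧
      ∀ q : H × (J → T), q.1 ∈ U → (∀ j ∈ I, q.2 j ∈ w j) → q ∈ O := by
  obtain ⟨U, V, hU, hV, h1, h2, h3⟩ := isOpen_prod_iff.1 hO p.1 p.2 hp
  obtain ⟨I, w, h4, h5⟩ := isOpen_pi_iff.1 hV p.2 h2
  exact ⟨U, I, w, hU, h1, h4, fun q hq1 hq2 => h3 ⟨hq1, h5 fun j hj => hq2 j hj⟩⟩

theorem t_BR : S_BR.{u, v} := by
  classical
  intro hCY hOX A H J _ _ _ _ _ π f hind hrich hccc
  obtain ⟨ι, hι⟩ : ∃ ι : A → H × (J → T), ι = fun a : A => ((π a, fun j => f j a) : H × (J → T)) :=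
    ⟨_, rfl⟩
  rw [← hι] at hind
  have hι1 : ∀ a, (ι a).1 = π a := fun a => by rw [hι]
  have hι2 : ∀ a j, (ι a).2 j = f j a := fun a j => by rw [hι]
  have hdr : ∀ O : Set (H × (J → T)), IsOpen O → O.Nonempty → ∃ a, ι a ∈ O := by
    rintro O hO ⟨p, hp⟩
    obtain ⟨U, I, w, hU, h1, h2, h3⟩ := BR_box hO hp
    obtain ⟨a, ha1, ha2⟩ := hrich (I : Set J) I.finite_toSet.countable p.2 p.1
    refine ⟨a, h3 _ ?_ ?_⟩
    · rw [hι1, ha1]; exact h1
    · intro j hj
      rw [hι2, ha2 j hj]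
      exact (h2 j hj).2
  constructor
  intro g hgo hgd
  have hW : ∀ n, ∃ W : Set (H × (J → T)), IsOpen W ∧ ι ⁻¹' W = g n := fun n => by
    obtain ⟨W, h1, h2⟩ := hind.isOpen_iff.1 (hgo n)
    exact ⟨W, h1, h2⟩
  choose W hWo hWg using hW
  have hWd : ∀ n, Dense (W n) := by
    intro n
    rw [dense_iff_inter_open]
    intro O hO hne
    obtain ⟨a, ha⟩ := hdr O hO hne
    have hO' : IsOpen (ι ⁻¹' O) := hO.preimage hind.continuous
    obtain ⟨b, hb1, hb2⟩ := (dense_iff_inter_open.1 (hgd n)) _ hO' ⟨a, ha⟩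
    refine ⟨ι b, hb1, ?_⟩
    rw [← hWg n] at hb2
    exact hb2
  have hcy := fun n => hCY H J hccc (W n) (hWo n) (hWd n)
  choose S W' hS hW'W hW'o hW'd hW'c using hcy
  rw [dense_iff_inter_open]
  rintro V hV ⟨a0, ha0⟩
  obtain ⟨V', hV', hVV'⟩ := hind.isOpen_iff.1 hV
  have ha0' : ι a0 ∈ V' := by
    have : a0 ∈ ι ⁻¹' V' := by rw [hVV']; exact ha0
    exact this
  obtain ⟨U0, I, w, hU0, hb1, hb2, hb3⟩ := BR_box hV' ha0'
  obtain ⟨SS, hSS⟩ : ∃ SS : Set J, SS = (I : Set J) ∪ ⋃ n, S n := ⟨_, rfl⟩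
  have hSSc : SS.Countable := by
    rw [hSS]
    exact I.finite_toSet.countable.union (Set.countable_iUnion hS)
  have hIS : ∀ j ∈ I, j ∈ SS := fun j hj => by rw [hSS]; exact Or.inl hj
  have hSnS : ∀ n, ∀ j ∈ S n, j ∈ SS := fun n j hj => by
    rw [hSS]; exact Or.inr (Set.mem_iUnion.2 ⟨n, hj⟩)
  have : Countable SS := hSSc.to_subtype
  have : BaireSpace (H × (SS → T)) := hOX H (SS → T)
  obtain ⟨ext, hext⟩ : ∃ ext : H × (SS → T) → H × (J → T), ext = fun y =>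
      (y.1, fun j => if hj : j ∈ SS then y.2 ⟨j, hj⟩ else 0) := ⟨_, rfl⟩
  have hextc : Continuous ext := by
    rw [hext]
    refine continuous_fst.prodMk (continuous_pi fun j => ?_)
    by_cases hj : j ∈ SS
    · simp only [dif_pos hj]
      exact (continuous_apply _).comp continuous_snd
    · simp only [dif_neg hj]
      exact continuous_const
  have hext1 : ∀ y, (ext y).1 = y.1 := fun y => by rw [hext]
  have hext2 : ∀ y j (hj : j ∈ SS), (ext y).2 j = y.2 ⟨j, hj⟩ := fun y j hj => by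
    rw [hext]; simp only [dif_pos hj]
  obtain ⟨r, hr⟩ : ∃ r : H × (J → T) → H × (SS → T), r = fun p => (p.1, fun j => p.2 j) := ⟨_, rfl⟩
  have hrc : Continuous r := by
    rw [hr]
    exact continuous_fst.prodMk (continuous_pi fun j => (continuous_apply _).comp continuous_snd)
  have hr1 : ∀ p, (r p).1 = p.1 := fun p => by rw [hr]
  have hr2 : ∀ p j, (r p).2 j = p.2 j := fun p j => by rw [hr]
  have hrext : ∀ y, r (ext y) = y := by
    intro y
    apply Prod.ext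
    · rw [hr1, hext1]
    · funext j
      rw [hr2, hext2 y j j.2]
  have hextr1 : ∀ p, (ext (r p)).1 = p.1 := fun p => by rw [hext1, hr1]
  have hextr2 : ∀ p j, j ∈ SS → (ext (r p)).2 j = p.2 j := fun p j hj => by
    rw [hext2 _ j hj, hr2]
  have hWW : Dense (⋂ n, ext ⁻¹' (W' n)) := by
    apply dense_iInter_of_isOpen_nat (fun n => (hW'o n).preimage hextc)
    intro n
    rw [dense_iff_inter_open]
    rintro O hO ⟨y, hy⟩
    have hO' : IsOpen (r ⁻¹' O) := hO.preimage hrc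
    obtain ⟨p, hp1, hp2⟩ := (dense_iff_inter_open.1 (hW'd n)) _ hO' ⟨ext y, by
      show r (ext y) ∈ O
      rw [hrext]; exact hy⟩
    refine ⟨r p, hp1, ?_⟩
    show ext (r p) ∈ W' n
    exact hW'c n p hp2 _ (hextr1 p) (fun j hj => hextr2 p j (hSnS n j hj))
  obtain ⟨B, hB⟩ : ∃ B : Set (H × (J → T)), B = {q | q.1 ∈ U0 ∧ ∀ j ∈ I, q.2 j ∈ w j} := ⟨_, rfl⟩
  have hBo : IsOpen B := by
    have e : B = (Prod.fst ⁻¹' U0) ∩ ⋂ j ∈ I, (fun q : H × (J → T) => q.2 j) ⁻¹' (w j) := by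
      rw [hB]
      ext q
      simp
    rw [e]
    refine (hU0.preimage continuous_fst).inter ?_
    refine isOpen_biInter_finset fun j hj => ?_
    exact (hb2 j hj).1.preimage ((continuous_apply j).comp continuous_snd)
  have hBne : (ext ⁻¹' B).Nonempty := by
    refine ⟨r (ι a0), ?_⟩
    show ext (r (ι a0)) ∈ B
    rw [hB]
    refine ⟨?_, fun j hj => ?_⟩
    · rw [hextr1]; exact hb1
    · rw [hextr2 _ j (hIS j hj)]; exact (hb2 j hj).2
  obtain ⟨y, hy1, hy2⟩ := (dense_iff_inter_open.1 hWW) _ (hBo.preimage hextc) hBne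
  obtain ⟨a, ha1, ha2⟩ := hrich SS hSSc (ext y).2 (ext y).1
  refine ⟨a, ?_, ?_⟩
  · rw [← hVV']
    show ι a ∈ V'
    have hyB : ext y ∈ B := hy1
    rw [hB] at hyB
    refine hb3 _ ?_ (fun j hj => ?_)
    · rw [hι1, ha1]; exact hyB.1
    · rw [hι2, ha2 j (hIS j hj)]; exact hyB.2 j hj
  · rw [Set.mem_iInter]
    intro n
    rw [← hWg n]
    show ι a ∈ W n
    apply hW'W n
    refine hW'c n (ext y) (Set.mem_iInter.1 hy2 n) _ ?_ (fun j hj => ?_)
    · rw [hι1, ha1]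
    · rw [hι2, ha2 j (hSnS n j hj)]

end Pool.Agent.U570.RQ
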