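import Mathlib
import Pool.Agent.U570.RQ.Stm

/-! Package CA of project RQ: the index set (cardinal arithmetic). -/

set_option autoImplicit false

open Cardinal

namespace Pool.Agent.U570.RQ

universe u

theorem CA_surj {Y E : Type u} (hY : #Y ≤ #E) (hE : ℵ₀ < #E) [Nonempty Y] :
    ∃ q : E → Y, ∀ y, ∀ D : Set E, D.Countable → ∃ e : E, e ∉ D ∧ q e = y := by
  have h1 : #(Y × E) ≤ #E := by
    rw [mk_prod, lift_id, lift_id]
    calc #Y * #E ≤ #E * #E := by gcongr
      _ = #E := mul_eq_self hE.le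
  obtain ⟨i⟩ := (Cardinal.le_def _ _).1 h1
  haveI : Nonempty E := by
    rw [← mk_ne_zero_iff]
    exact fun h => by simp [h] at hE
  refine ⟨fun e => (Function.invFun i e).1, fun y D hD => ?_⟩
  by_contra hcon
  push Not at hcon
  have h2 : ∀ e', i (y, e') ∈ D := by
    intro e'
    by_contra h
    apply hcon _ h
    show (Function.invFun i (i (y, e'))).1 = y
    rw [Function.leftInverse_invFun i.injective (y, e')]
  have h3 : #E ≤ ℵ₀ := by
    have h4 : #E ≤ #D := mk_le_of_injective (f := fun e' => (⟨i (y, e'), h2 e'⟩ : D))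
      (fun a b hab => by
        have := i.injective (Subtype.ext_iff.1 hab)
        exact (Prod.ext_iff.1 this).2)
    exact h4.trans hD.le_aleph0
  exact absurd h3 (not_le.2 hE)

theorem CA_T : #T ≤ 𝔠 := by
  have h : #(AddCircle (1 : ℝ)) ≤ #ℝ := mk_le_of_surjective QuotientAddGroup.mk_surjective
  rwa [mk_real] at h

theorem CA_NT : #(ℕ → T) ≤ 𝔠 := by
  have h : #(ℕ → T) = #T ^ ℵ₀ := by simp
  rw [h, ← continuum_power_aleph0]
  exact Cardinal.power_le_power_right CA_T

theorem t_CA : S_CA.{u} := by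
  intro H _
  let E : Type u := ℕ → (H × (ℕ → Bool))
  have hE : #E = (#H * 𝔠) ^ ℵ₀ := by
    have : #(ℕ → Bool) = 𝔠 := by simp
    simp only [E, mk_pi, prod_const, mk_prod]
    simp
  have hk : #E ^ ℵ₀ = #E := by
    rw [hE, ← power_mul, aleph0_mul_aleph0]
  have hH0 : #H ≠ 0 := mk_ne_zero_iff.2 inferInstance
  have h0 : #H * 𝔠 ≤ #E := by
    rw [hE]
    exact self_le_power _ (by exact one_le_aleph0)
  have hc : 𝔠 ≤ #E := le_trans (le_mul_of_one_le_left zero_le (Cardinal.one_le_iff_ne_zero.2 hH0)) h0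
  have hH : #H ≤ #E := le_trans (le_mul_of_one_le_right zero_le
    (Cardinal.one_le_iff_ne_zero.2 continuum_ne_zero)) h0
  have haE : ℵ₀ < #E := lt_of_lt_of_le aleph0_lt_continuum hc
  haveI : Infinite E := infinite_iff.2 haE.le
  have hF : #(E →₀ ℤ) = #E := by
    rw [mk_finsupp_lift_of_infinite]
    simp only [lift_id, mk_int, lift_aleph0, lift_uzero]
    exact max_eq_left haE.le
  have hN : ∀ (X : Type u), #X ≤ #E → #(ℕ → X) ≤ #E := by
    intro X hX
    have h : #(ℕ → X) = #X ^ ℵ₀ := by simp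
    rw [h, ← hk]
    exact Cardinal.power_le_power_right hX
  have hP : ∀ (X : Type u), #X ≤ #E → #(X × (ℕ → T)) ≤ #E := by
    intro X hX
    rw [mk_prod, lift_uzero]
    calc #X * lift.{u} #(ℕ → T) ≤ #E * #E := by
          refine mul_le_mul' hX ?_
          refine le_trans ?_ hc
          have := lift_le.{u}.2 CA_NT
          rwa [lift_continuum] at this
      _ = #E := mul_eq_self haE.le
  have hY : #((ℕ → ((ℕ → (E →₀ ℤ)) × (ℕ → T))) × H × (ℕ → T)) ≤ #E := by
    have h1 : #(ℕ → ((ℕ → (E →₀ ℤ)) × (ℕ → T))) ≤ #E := hN _ (hP _ (hN _ hF.le))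
    have h2 : #(H × (ℕ → T)) ≤ #E := hP _ hH
    rw [mk_prod, lift_id, lift_id]
    calc _ ≤ #E * #E := mul_le_mul' h1 h2
      _ = #E := mul_eq_self haE.le
  obtain ⟨q, hq⟩ := CA_surj hY haE
  exact ⟨E, q, hq⟩

end Pool.Agent.U570.RQ
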