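import Mathlib
import Pool.Agent.U570.RQ.Stm

/-!
# Project RQ, package CC (helper165): totally bounded abelian groups have the countable chain
condition
-/

set_option autoImplicit false

open Filter Topology Pointwise

namespace Pool.Agent.U570.RQ

universe u

section

variable {G : Type u} [AddCommGroup G]

/-- the sets `d + V`, `d ∈ D`, are disjoint -/
def CC_sep (V : Set G) (D : Finset G) : Prop :=
  ∀ d ∈ D, ∀ d' ∈ D, ∀ v ∈ V, ∀ v' ∈ V, d + v = d' + v' → d = d'

theorem CC_bound [TopologicalSpace G] [IsTopologicalAddGroup G] (hTB : TB G) (V : Set G)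
    (hV : V ∈ 𝓝 (0 : G)) : ∃ B : ℕ, ∀ D : Finset G, CC_sep V D → D.card ≤ B := by
  classical
  have hV' : -V ∈ 𝓝 (0 : G) := by
    have := neg_mem_nhds_zero G hV
    exact this
  obtain ⟨E, hE, hVE⟩ := hTB (-V) hV'
  have h1 : ∀ d : G, ∃ e ∈ E, ∃ v ∈ V, d + v = e := by
    intro d
    have hd : d ∈ -V + E := by rw [hVE]; exact Set.mem_univ d
    obtain ⟨a, ha, e, he, hae⟩ := Set.mem_add.1 hd
    refine ⟨e, he, -a, Set.mem_neg.1 ha, ?_⟩
    rw [← hae]
    abel
  choose f hf g hg hfg using h1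
  refine ⟨hE.toFinset.card, fun D hD => ?_⟩
  refine Finset.card_le_card_of_injOn f (fun d _ => ?_) ?_
  · rw [Finset.mem_coe, Set.Finite.mem_toFinset]
    exact hf d
  · intro d hd d' hd' hdd
    refine hD d hd d' hd' (g d) (hg d) (g d') (hg d') ?_
    rw [hfg, hfg]
    exact hdd

theorem CC_max (V : Set G) (B : ℕ) (hB : ∀ D : Finset G, CC_sep V D → D.card ≤ B) :
    ∃ D : Finset G, CC_sep V D ∧ 1 ≤ D.card ∧ ∀ D' : Finset G, CC_sep V D' → D'.card ≤ D.card := by
  classical
  have h0 : CC_sep V ({0} : Finset G) := by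
    intro d hd d' hd' _ _ _ _ _
    rw [Finset.mem_singleton.1 hd, Finset.mem_singleton.1 hd']
  have h1 : ∃ D : Finset G, CC_sep V D ∧ D.card = 1 := ⟨{0}, h0, Finset.card_singleton 0⟩
  have hb : 1 ≤ B := by
    have := hB {0} h0
    rwa [Finset.card_singleton] at this
  obtain ⟨D, hD, hDc⟩ := Nat.findGreatest_spec
    (P := fun n => ∃ D : Finset G, CC_sep V D ∧ D.card = n) hb h1
  refine ⟨D, hD, ?_, fun D' hD' => ?_⟩
  · rw [hDc]
    exact Nat.le_findGreatest hb h1
  · rw [hDc]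
    exact Nat.le_findGreatest (hB D' hD') ⟨D', hD', rfl⟩

end

theorem t_CC : S_CC.{u} := by
  classical
  intro G _ _ _ hTB 𝒰 hU hdis
  by_contra hunc
  -- the choices
  have hch : ∀ O : Set G, ∃ (x : G) (V : Set G) (E : Finset G), O ∈ 𝒰 →
      V ∈ 𝓝 (0 : G) ∧ (∀ v ∈ V, ∀ w ∈ V, x + v + w ∈ O) ∧
        ∀ g : G, ∃ e ∈ E, ∃ v ∈ V, v + e = g := by
    intro O
    by_cases hO : O ∈ 𝒰
    · obtain ⟨hOo, x, hx⟩ := hU O hO
      have hc : Continuous fun p : G × G => x + p.1 + p.2 := by fun_prop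
      have hmem : (fun p : G × G => x + p.1 + p.2) ⁻¹' O ∈ 𝓝 ((0 : G), (0 : G)) := by
        refine hc.continuousAt.preimage_mem_nhds ?_
        refine hOo.mem_nhds ?_
        simpa using hx
      rw [nhds_prod_eq] at hmem
      obtain ⟨V, hV, hVV⟩ := Filter.mem_prod_same_iff.1 hmem
      obtain ⟨E, hE, hVE⟩ := hTB V hV
      refine ⟨x, V, hE.toFinset, fun _ => ⟨hV, fun v hv w hw => hVV (Set.mk_mem_prod hv hw), ?_⟩⟩
      intro g
      have hg : g ∈ V + E := by rw [hVE]; exact Set.mem_univ g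
      obtain ⟨v, hv, e, he, hve⟩ := Set.mem_add.1 hg
      exact ⟨e, hE.mem_toFinset.2 he, v, hv, hve⟩
    · exact ⟨0, ∅, ∅, fun h => absurd h hO⟩
  choose x V E hprop using hch
  -- a common cardinality
  have hN : ∃ N : ℕ, {O ∈ 𝒰 | (E O).card = N}.Infinite := by
    by_contra hcon
    push Not at hcon
    apply hunc
    have h1 : 𝒰 = ⋃ N : ℕ, {O ∈ 𝒰 | (E O).card = N} := by
      ext O
      simp
    rw [h1]
    exact Set.countable_iUnion fun N => (hcon N).countable
  obtain ⟨N, hN⟩ := hN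
  obtain ⟨t, ht, htc⟩ := hN.exists_subset_card_eq (N + 1)
  have htU : ∀ O ∈ t, O ∈ 𝒰 := fun O hO => (ht hO).1
  have htN : ∀ O ∈ t, (E O).card = N := fun O hO => (ht hO).2
  -- the common neighbourhood
  have hW : (⋂ O ∈ t, V O) ∈ 𝓝 (0 : G) :=
    (Filter.biInter_finset_mem t).2 fun O hO => (hprop O (htU O hO)).1
  obtain ⟨W, hWd⟩ : ∃ W : Set G, W = ⋂ O ∈ t, V O := ⟨_, rfl⟩
  rw [← hWd] at hW
  have hWV : ∀ O ∈ t, W ⊆ V O := by
    intro O hO
    rw [hWd]
    exact Set.biInter_subset_of_mem (Finset.mem_coe.2 hO)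
  have h0W : (0 : G) ∈ W := mem_of_mem_nhds hW
  obtain ⟨B, hB⟩ := CC_bound hTB W hW
  obtain ⟨D, hD, hD1, hDmax⟩ := CC_max W B hB
  -- pigeonhole
  have hpig : ∀ O : Set G, ∃ D' : Finset G, O ∈ t → CC_sep W D' ∧ D.card ≤ N * D'.card ∧
      ∀ z ∈ D', ∀ w ∈ W, z + w ∈ O := by
    intro O
    by_cases hO : O ∈ t
    swap
    · exact ⟨∅, fun h => absurd h hO⟩
    obtain ⟨-, hV2, hcov⟩ := hprop O (htU O hO)
    choose e he v hv hve using hcov
    have hne : (E O).Nonempty := ⟨e 0, he 0⟩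
    have hfib : D.card = ∑ b ∈ E O, (D.filter fun d => e d = b).card :=
      Finset.card_eq_sum_card_fiberwise fun d _ => he d
    have hsum : ∑ _b ∈ E O, D.card ≤ ∑ b ∈ E O, N * (D.filter fun d => e d = b).card := by
      rw [← Finset.mul_sum, ← hfib, Finset.sum_const, htN O hO, smul_eq_mul]
    obtain ⟨b, hb, hbD⟩ := Finset.exists_le_of_sum_le hne hsum
    refine ⟨(D.filter fun d => e d = b).image fun d => x O - b + d, fun _ => ⟨?_, ?_, ?_⟩⟩
    · intro z hz z' hz' w hw w' hw' hzw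
      obtain ⟨d, hd, rfl⟩ := Finset.mem_image.1 hz
      obtain ⟨d', hd', rfl⟩ := Finset.mem_image.1 hz'
      have h1 : d = d' := by
        refine hD d (Finset.mem_filter.1 hd).1 d' (Finset.mem_filter.1 hd').1 w hw w' hw' ?_
        have h2 : x O - b + (d + w) = x O - b + (d' + w') := by
          rw [← add_assoc, ← add_assoc]
          exact hzw
        exact add_left_cancel h2
      rw [h1]
    · rw [Finset.card_image_of_injective _ (add_right_injective (x O - b))]
      exact hbD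
    · intro z hz w hw
      obtain ⟨d, hd, rfl⟩ := Finset.mem_image.1 hz
      have hdb : e d = b := (Finset.mem_filter.1 hd).2
      have h1 : x O - b + d = x O + v d := by
        have h2 := hve d
        rw [hdb] at h2
        calc x O - b + d = x O - b + (v d + b) := by rw [h2]
          _ = x O + v d := by abel
      rw [h1]
      exact hV2 (v d) (hv d) w (hWV O hO hw)
  choose D' hD' using hpig
  -- the union
  have hdisj : ∀ O ∈ t, ∀ O' ∈ t, ∀ z ∈ D' O, ∀ z' ∈ D' O', ∀ w ∈ W, ∀ w' ∈ W,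
      z + w = z' + w' → O = O' := by
    intro O hO O' hO' z hz z' hz' w hw w' hw' hzw
    by_contra hne
    have h1 := hdis (htU O hO) (htU O' hO') hne
    have h2 := (hD' O hO).2.2 z hz w hw
    have h3 := (hD' O' hO').2.2 z' hz' w' hw'
    rw [← hzw] at h3
    exact Set.disjoint_left.1 h1 h2 h3
  have hUsep : CC_sep W (t.biUnion D') := by
    intro z hz z' hz' w hw w' hw' hzw
    obtain ⟨O, hO, hzO⟩ := Finset.mem_biUnion.1 hz
    obtain ⟨O', hO', hzO'⟩ := Finset.mem_biUnion.1 hz'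
    have h1 : O = O' := hdisj O hO O' hO' z hzO z' hzO' w hw w' hw' hzw
    subst h1
    exact (hD' O hO).1 z hzO z' hzO' w hw w' hw' hzw
  have hUc : (t.biUnion D').card = ∑ O ∈ t, (D' O).card := by
    refine Finset.card_biUnion fun O hO O' hO' hne => ?_
    refine Finset.disjoint_left.2 ?_
    intro z hz hz'
    exact hne (hdisj O hO O' hO' z hz z hz' 0 h0W 0 h0W rfl)
  have h1 := hDmax _ hUsep
  have h2 : (N + 1) * D.card ≤ N * (t.biUnion D').card := by
    rw [hUc, Finset.mul_sum, ← htc, ← smul_eq_mul, ← Finset.sum_const]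
    exact Finset.sum_le_sum fun O hO => (hD' O hO).2.1
  have h3 : N * (t.biUnion D').card ≤ N * D.card := Nat.mul_le_mul_left N h1
  have h4 : (N + 1) * D.card = N * D.card + D.card := by ring
  omega

end Pool.Agent.U570.RQ
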