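import Mathlib
import Pool.Agent.U570.RQ.Stm

/-!
# Project RQ, package CH: the matrix of homomorphisms
-/

set_option autoImplicit false

open Filter Topology Pointwise

namespace Pool.Agent.U570.RQ

universe u

section CH

variable {E : Type u} {H : Type u} [AddCommGroup H]

/-- the supports of the members of the sequence of `j` -/
def CH_E (j : (ℕ → (E →₀ ℤ)) × (ℕ → T)) : Set E := ⋃ n, ((j.1 n).support : Set E)

lemma CH_E_countable (j : (ℕ → (E →₀ ℤ)) × (ℕ → T)) : (CH_E j).Countable :=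
  Set.countable_iUnion fun n => (j.1 n).support.countable_toSet

open Classical in
/-- a homomorphism with the prescribed values on the sequence of `j`, if there is one -/
noncomputable def CH_chi (j : (ℕ → (E →₀ ℤ)) × (ℕ → T)) : (E →₀ ℤ) →+ T :=
  if h : ∃ χ : (E →₀ ℤ) →+ T, ∀ n, χ (j.1 n) = j.2 n then h.choose else 0

lemma CH_chi_apply (j : (ℕ → (E →₀ ℤ)) × (ℕ → T))
    (h : ∃ χ : (E →₀ ℤ) →+ T, ∀ n, χ (j.1 n) = j.2 n) (n : ℕ) : CH_chi j (j.1 n) = j.2 n := by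
  unfold CH_chi
  rw [dif_pos h]
  exact h.choose_spec n

open Classical in
/-- the value prescribed by the index `e` at `j` -/
noncomputable def CH_r (q : E → (ℕ → ((ℕ → (E →₀ ℤ)) × (ℕ → T))) × H × (ℕ → T))
    (j : (ℕ → (E →₀ ℤ)) × (ℕ → T)) (e : E) : T :=
  if h : ∃ n, (q e).1 n = j then (q e).2.2 h.choose else 0

open Classical in
/-- the matrix -/
noncomputable def CH_c (q : E → (ℕ → ((ℕ → (E →₀ ℤ)) × (ℕ → T))) × H × (ℕ → T))
    (j : (ℕ → (E →₀ ℤ)) × (ℕ → T)) (e : E) : T :=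
  if e ∈ CH_E j then CH_chi j (Finsupp.single e 1) else CH_r q j e

/-- the homomorphisms -/
noncomputable def CH_f (q : E → (ℕ → ((ℕ → (E →₀ ℤ)) × (ℕ → T))) × H × (ℕ → T))
    (j : (ℕ → (E →₀ ℤ)) × (ℕ → T)) : (E →₀ ℤ) →+ T :=
  Finsupp.liftAddHom (fun e => (zmultiplesHom T) (CH_c q j e))

/-- the projection -/
noncomputable def CH_pi (q : E → (ℕ → ((ℕ → (E →₀ ℤ)) × (ℕ → T))) × H × (ℕ → T)) :
    (E →₀ ℤ) →+ H :=
  Finsupp.liftAddHom (fun e => (zmultiplesHom H) (q e).2.1)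

omit [AddCommGroup H] in
lemma CH_f_single (q : E → (ℕ → ((ℕ → (E →₀ ℤ)) × (ℕ → T))) × H × (ℕ → T))
    (j : (ℕ → (E →₀ ℤ)) × (ℕ → T)) (e : E) : CH_f q j (Finsupp.single e 1) = CH_c q j e := by
  simp [CH_f]

lemma CH_pi_single (q : E → (ℕ → ((ℕ → (E →₀ ℤ)) × (ℕ → T))) × H × (ℕ → T)) (e : E) :
    CH_pi q (Finsupp.single e 1) = (q e).2.1 := by
  simp [CH_pi]

lemma CH_sum (φ : (E →₀ ℤ) →+ T) (a : E →₀ ℤ) :
    φ a = a.sum fun e z => z • φ (Finsupp.single e 1) := by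
  have h : φ = Finsupp.liftAddHom (fun e => (zmultiplesHom T) (φ (Finsupp.single e 1))) := by
    apply Finsupp.addHom_ext
    intro e z
    rw [Finsupp.liftAddHom_apply_single, zmultiplesHom_apply, ← map_zsmul]
    congr 1
    simp
  conv_lhs => rw [h]
  rw [Finsupp.liftAddHom_apply]
  rfl

end CH

theorem t_CH : S_CH.{u} := by
  intro hCA H _
  obtain ⟨E, q, hq⟩ := hCA H
  refine ⟨E, CH_pi q, CH_f q, ?_, ?_⟩
  · intro S hS t h
    obtain ⟨s, hs⟩ := Set.countable_iff_exists_subset_range.1 hS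
    obtain ⟨e, he, hqe⟩ := hq (s, h, fun n => t (s n)) (⋃ n, CH_E (s n))
      (Set.countable_iUnion fun n => CH_E_countable (s n))
    refine ⟨Finsupp.single e 1, ?_, fun j hj => ?_⟩
    · rw [CH_pi_single, hqe]
    · obtain ⟨n, rfl⟩ := hs hj
      rw [CH_f_single]
      have h1 : e ∉ CH_E (s n) := fun h2 => he (Set.mem_iUnion.2 ⟨n, h2⟩)
      have h2 : ∃ m, (q e).1 m = s n := ⟨n, by rw [hqe]⟩
      unfold CH_c CH_r
      rw [if_neg h1, dif_pos h2]
      have h3 := h2.choose_spec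
      have h4 : (q e).2.2 = fun n => t (s n) := by rw [hqe]
      have h5 : (q e).1 = s := by rw [hqe]
      rw [h4]
      change t (s h2.choose) = t (s n)
      rw [(congrFun h5 _).symm.trans h3]
  · intro C hC χ
    obtain ⟨a, ha⟩ := Set.countable_iff_exists_subset_range.1 hC
    refine ⟨(a, fun n => χ (a n)), fun b hb => ?_⟩
    obtain ⟨n, rfl⟩ := ha hb
    set j : (ℕ → (E →₀ ℤ)) × (ℕ → T) := (a, fun n => χ (a n)) with hj
    have h1 : CH_chi j (a n) = χ (a n) := CH_chi_apply j ⟨χ, fun _ => rfl⟩ n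
    rw [← h1, CH_sum (CH_f q j), CH_sum (CH_chi j)]
    refine Finsupp.sum_congr fun e he => ?_
    rw [CH_f_single]
    have h2 : e ∈ CH_E j := Set.mem_iUnion.2 ⟨n, he⟩
    unfold CH_c
    rw [if_pos h2]

end Pool.Agent.U570.RQ
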