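import Mathlib
import Pool.Agent.U570.RQ.Stm

/-! Project RQ, package CK: infinite countable compact Hausdorff spaces contain nontrivial
convergent sequences. -/

set_option autoImplicit false

open Filter Topology

namespace Pool.Agent.U570.RQ

universe u

/-- the neighbourhood filters of a countable compact Hausdorff space are countably generated -/
theorem CK_nhds (K : Type u) [TopologicalSpace K] [CompactSpace K] [T2Space K] [Countable K]
    (p : K) : (𝓝 p).IsCountablyGenerated := by
  have h1 : ∀ q : {q : K // q ≠ p}, ∃ F ∈ 𝓝 p, IsClosed F ∧ (q : K) ∉ F := by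
    rintro ⟨q, hq⟩
    have h2 : ({q}ᶜ : Set K) ∈ 𝓝 p := isOpen_compl_singleton.mem_nhds (fun h => hq h.symm)
    obtain ⟨F, ⟨hF1, hF2⟩, hF3⟩ := (closed_nhds_basis p).mem_iff.1 h2
    exact ⟨F, hF1, hF2, fun h => hF3 h rfl⟩
  choose F hF1 hF2 hF3 using h1
  have h2 : 𝓝 p = ⨅ q : {q : K // q ≠ p}, 𝓟 (F q) := by
    apply le_antisymm
    · exact le_iInf fun q => le_principal_iff.2 (hF1 q)
    · intro O hO
      obtain ⟨U, hUO, hU, hpU⟩ := mem_nhds_iff.1 hO
      have h3 : Uᶜ ∩ ⋂ q, F q = ∅ := by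
        rw [Set.eq_empty_iff_forall_notMem]
        rintro x ⟨hx1, hx2⟩
        have hxp : x ≠ p := by
          rintro rfl
          exact hx1 hpU
        exact hF3 ⟨x, hxp⟩ (Set.mem_iInter.1 hx2 ⟨x, hxp⟩)
      obtain ⟨t, ht⟩ := hU.isClosed_compl.isCompact.elim_finite_subfamily_closed F hF2 h3
      have h4 : (⋂ q ∈ t, F q) ∈ ⨅ q : {q : K // q ≠ p}, 𝓟 (F q) := by
        rw [Filter.biInter_finset_mem]
        intro q _
        exact mem_iInf_of_mem q (mem_principal_self _)
      refine mem_of_superset h4 fun x hx => hUO ?_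
      by_contra hxU
      have : x ∈ Uᶜ ∩ ⋂ q ∈ t, F q := ⟨hxU, hx⟩
      rw [ht] at this
      exact this
  rw [h2]
  infer_instance

theorem t_CK : S_CK.{u} := by
  intro K _ _ _ _ _
  have h1 : ∃ p : K, (𝓝[≠] p).NeBot := by
    by_contra hcon
    push Not at hcon
    have hd : DiscreteTopology K := by
      rw [discreteTopology_iff_nhds_ne]
      intro x
      exact Filter.not_neBot.1 (by simpa using hcon x)
    have : Finite K := finite_of_compact_of_discrete
    exact not_finite K
  obtain ⟨p, hp⟩ := h1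
  have h2 : (𝓝 p).IsCountablyGenerated := CK_nhds K p
  have h3 : (𝓝[≠] p).IsCountablyGenerated := by
    unfold nhdsWithin
    infer_instance
  obtain ⟨x, hx⟩ := exists_seq_tendsto (𝓝[≠] p)
  obtain ⟨h4, h5⟩ := tendsto_nhdsWithin_iff.1 hx
  obtain ⟨N, hN⟩ := eventually_atTop.1 h5
  exact ⟨fun n => x (n + N), p, fun n => hN (n + N) (by omega),
    h4.comp (tendsto_add_atTop_nat N)⟩

end Pool.Agent.U570.RQ

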