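import Mathlib
import Pool.Agent.U570.RQ.Stm

/-!
# Project RQ, package CY (helper637): dense open sets of a ccc product contain dense open cylinders
over countably many coordinates
-/

set_option autoImplicit false

open Filter Topology Pointwise

namespace Pool.Agent.U570.RQ

universe u v

/-- a box: an open condition on the first coordinate and on finitely many further coordinates -/
def CY_Box {H : Type u} {J : Type v} [TopologicalSpace H] (F : Finset J)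
    (B : Set (H × (J → T))) : Prop :=
  ∃ (U : Set H) (O : J → Set T), IsOpen U ∧ (∀ j ∈ F, IsOpen (O j)) ∧
    B = {p | p.1 ∈ U ∧ ∀ j ∈ F, p.2 j ∈ O j}

theorem CY_isOpen {H : Type u} {J : Type v} [TopologicalSpace H] {F : Finset J}
    {B : Set (H × (J → T))} (hB : CY_Box F B) : IsOpen B := by
  obtain ⟨U, O, hU, hO, rfl⟩ := hB
  have h1 : {p : H × (J → T) | p.1 ∈ U ∧ ∀ j ∈ F, p.2 j ∈ O j} =
      U ×ˢ ((F : Set J).pi O) := by
    ext p
    simp [Set.mem_pi]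
  rw [h1]
  exact hU.prod (isOpen_set_pi F.finite_toSet fun j hj => hO j hj)

theorem CY_exists {H : Type u} {J : Type v} [TopologicalSpace H] {W : Set (H × (J → T))}
    (hW : IsOpen W) {p : H × (J → T)} (hp : p ∈ W) :
    ∃ (F : Finset J) (B : Set (H × (J → T))), CY_Box F B ∧ p ∈ B ∧ B ⊆ W := by
  obtain ⟨u, v, hu, hv, hpu, hpv, huv⟩ := isOpen_prod_iff.1 hW p.1 p.2 hp
  obtain ⟨F, O, hO, hsub⟩ := isOpen_pi_iff.1 hv p.2 hpv
  refine ⟨F, {p | p.1 ∈ u ∧ ∀ j ∈ F, p.2 j ∈ O j}, ⟨u, O, hu, fun j hj => (hO j hj).1, rfl⟩,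
    ⟨hpu, fun j hj => (hO j hj).2⟩, ?_⟩
  rintro q ⟨hq1, hq2⟩
  exact huv ⟨hq1, hsub fun j hj => hq2 j hj⟩

theorem t_CY : S_CY.{u, v} := by
  classical
  intro H _ J hccc W hW hWd
  let 𝒮 : Set (Set (Set (H × (J → T)))) := {𝒰 | (∀ B ∈ 𝒰, (∃ F : Finset J, CY_Box F B) ∧
    B.Nonempty ∧ B ⊆ W) ∧ 𝒰.PairwiseDisjoint id}
  obtain ⟨𝒰, h𝒰⟩ : ∃ m, Maximal (· ∈ 𝒮) m := by
    apply zorn_subset
    intro c hc hchain
    refine ⟨⋃₀ c, ⟨?_, ?_⟩, fun s hs => Set.subset_sUnion_of_mem hs⟩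
    · rintro B ⟨s, hs, hB⟩
      exact (hc hs).1 B hB
    · rw [Set.pairwiseDisjoint_sUnion hchain.directedOn]
      intro s hs
      exact (hc hs).2
  have hmem : ∀ B ∈ 𝒰, (∃ F : Finset J, CY_Box F B) ∧ B.Nonempty ∧ B ⊆ W := h𝒰.prop.1
  have hdis : 𝒰.PairwiseDisjoint id := h𝒰.prop.2
  have hcount : 𝒰.Countable := by
    refine hccc 𝒰 (fun B hB => ?_) hdis
    obtain ⟨⟨F, hF⟩, hne, -⟩ := hmem B hB
    exact ⟨CY_isOpen hF, hne⟩
  have hF : ∀ B : Set (H × (J → T)), ∃ F : Finset J, B ∈ 𝒰 → CY_Box F B := by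
    intro B
    by_cases hB : B ∈ 𝒰
    · obtain ⟨⟨F, hF⟩, -, -⟩ := hmem B hB
      exact ⟨F, fun _ => hF⟩
    · exact ⟨∅, fun h => absurd h hB⟩
  choose F hF using hF
  refine ⟨⋃ B ∈ 𝒰, (F B : Set J), ⋃₀ 𝒰, ?_, ?_, ?_, ?_, ?_⟩
  · exact hcount.biUnion fun B _ => (F B).countable_toSet
  · exact Set.sUnion_subset fun B hB => (hmem B hB).2.2
  · exact isOpen_sUnion fun B hB => CY_isOpen (hF B hB)
  · rw [dense_iff_inter_open]
    intro O hO hOne
    obtain ⟨p, hpO, hpW⟩ := hWd.inter_open_nonempty O hO hOne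
    obtain ⟨G, B, hB, hpB, hBsub⟩ := CY_exists (hO.inter hW) ⟨hpO, hpW⟩
    by_contra hcon
    have hdisj : ∀ B' ∈ 𝒰, Disjoint B B' := by
      intro B' hB'
      rw [Set.disjoint_left]
      intro q hq hq'
      exact hcon ⟨q, (hBsub hq).1, B', hB', hq'⟩
    have hins : insert B 𝒰 ∈ 𝒮 := by
      refine ⟨?_, ?_⟩
      · rintro B' (rfl | hB')
        · exact ⟨⟨G, hB⟩, ⟨p, hpB⟩, fun q hq => (hBsub hq).2⟩
        · exact hmem B' hB'
      · rw [Set.pairwiseDisjoint_insert]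
        exact ⟨hdis, fun B' hB' _ => hdisj B' hB'⟩
    have hBU : B ∈ 𝒰 := h𝒰.le_of_ge hins (Set.subset_insert _ _) (Set.mem_insert _ _)
    have := hdisj B hBU
    rw [disjoint_self] at this
    rw [this] at hpB
    exact hpB
  · rintro p ⟨B, hB, hpB⟩ q hq1 hq2
    refine ⟨B, hB, ?_⟩
    obtain ⟨U, O, hU, hO, hBeq⟩ := hF B hB
    rw [hBeq] at hpB ⊢
    refine ⟨by rw [hq1]; exact hpB.1, fun j hj => ?_⟩
    rw [hq2 j (Set.mem_biUnion hB hj)]
    exact hpB.2 j hj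

end Pool.Agent.U570.RQ
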