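import Mathlib
import Pool.Agent.U570.RQ.Stm
import Pool.Agent.R821.Duality

/-!
# Project RQ, package EQ: nearly equicontinuous sets of characters are finite
-/

set_option autoImplicit false

open Filter Topology Pointwise

namespace Pool.Agent.U570.RQ

universe u v

theorem EQ_pigeon {ι : Type*} [Finite ι] {Y : Type*} [Infinite Y] (F : Y → ι → T) {r : ℝ}
    (hr : 0 < r) : ∃ y z, y ≠ z ∧ ∀ i, ‖F y i - F z i‖ ≤ r := by
  classical
  have := Fintype.ofFinite ι
  have h1 : TotallyBounded (Set.univ : Set (ι → T)) := isCompact_univ.totallyBounded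
  obtain ⟨t, ht, hcov⟩ := Metric.totallyBounded_iff.1 h1 (r / 2) (half_pos hr)
  have h2 : ∀ y : Y, ∃ c : t, dist (F y) c < r / 2 := by
    intro y
    obtain ⟨c, hc, hc2⟩ := Set.mem_iUnion₂.1 (hcov (Set.mem_univ (F y)))
    exact ⟨⟨c, hc⟩, hc2⟩
  choose c hc using h2
  have := ht.to_subtype
  obtain ⟨y, z, hyz, hcyz⟩ := Finite.exists_ne_map_eq_of_infinite c
  refine ⟨y, z, hyz, fun i => ?_⟩
  have h3 : dist (F y) (F z) < r := by
    have h4 := hc y
    have h5 := hc z
    rw [← hcyz] at h5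
    calc dist (F y) (F z) ≤ dist (F y) (c y) + dist (F z) (c y) := dist_triangle_right _ _ _
      _ < r := by linarith
  rw [← dist_eq_norm]
  exact (dist_le_pi_dist (F y) (F z) i).trans h3.le

theorem t_EQ : S_EQ.{u, v} := by
  intro G _ _ hTB Y χ hχ U hU hUχ
  by_contra hY
  rw [not_finite_iff_infinite] at hY
  obtain ⟨E, hE, hUE⟩ := hTB U hU
  have := hE.to_subtype
  obtain ⟨y, z, hyz, hE2⟩ := EQ_pigeon (fun (y : Y) (e : E) => χ y e) (r := 1 / 16) (by norm_num)
  apply hyz
  apply hχ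
  have h1 : ∀ g, ‖χ y g - χ z g‖ ≤ 1 / 4 := by
    intro g
    have hg : g ∈ U + E := hUE ▸ Set.mem_univ g
    obtain ⟨u, hu, e, he, rfl⟩ := Set.mem_add.1 hg
    have h2 : χ y (u + e) - χ z (u + e) = (χ y u - χ z u) + (χ y e - χ z e) := by
      rw [map_add, map_add]
      abel
    rw [h2]
    refine (norm_add_le _ _).trans ?_
    have h3 := hUχ y z u hu
    have h4 := hE2 ⟨e, he⟩
    simp only at h4
    linarith
  ext g
  rw [← sub_eq_zero]
  apply Pool.Agent.R821.eq_zero_of_small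
  intro n
  have h2 : n • (χ y g - χ z g) = χ y (n • g) - χ z (n • g) := by
    rw [map_nsmul, map_nsmul, smul_sub]
  rw [h2]
  exact h1 _

end Pool.Agent.U570.RQ
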