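import Mathlib
import Pool.Agent.U570.RQ.Stm

/-!
# Project RQ, package F1: a closed infinite set with at most one accumulation point
-/

set_option autoImplicit false

open Filter Topology

namespace Pool.Agent.U570.RQ

universe v

theorem t_F1 : S_F1.{v} := by
  intro C _ _ _ F _ hF hU
  obtain ⟨p, -, hp⟩ := hF.exists_accPt_of_subset_isCompact isCompact_univ (Set.subset_univ F)
  set e := hF.natEmbedding F with he
  set x : ℕ → C := fun n => (e n : C) with hx
  have hinj : Function.Injective x := fun a b h => e.injective (Subtype.ext h)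
  have hacc : ∀ y, MapClusterPt y atTop x → AccPt y (𝓟 F) := by
    intro y hy
    rw [accPt_iff_frequently, frequently_iff]
    intro U hU'
    have h1 := (mapClusterPt_iff_frequently.1 hy) U hU'
    have h2 : ∀ᶠ a in (atTop : Filter ℕ), x a ≠ y := by
      by_cases h : ∃ a0, x a0 = y
      · obtain ⟨a0, ha0⟩ := h
        filter_upwards [eventually_gt_atTop a0] with a ha h3
        have := hinj (h3.trans ha0.symm)
        omega
      · push Not at h
        exact Eventually.of_forall h
    obtain ⟨a, ha1, ha2⟩ := (h1.and_eventually h2).exists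
    exact ⟨x a, ha1, ha2, (e a).2⟩
  have hlim : Tendsto x atTop (𝓝 p) := by
    refine isCompact_univ.le_nhds_of_unique_clusterPt univ_mem fun y _ hy => ?_
    exact hU y p (hacc y hy) hp
  refine ⟨fun n => x '' Set.Ici n, fun n => (Set.Ici_infinite n).image hinj.injOn, ?_⟩
  intro φ hφ ε hε
  have h1 : Tendsto (fun n => φ (x n)) atTop (𝓝 (φ p)) := (hφ.tendsto p).comp hlim
  have h2 : ∀ᶠ n in atTop, ‖φ (x n) - φ p‖ < ε / 2 := by
    have := (tendsto_iff_norm_sub_tendsto_zero.1 h1)
    exact this.eventually (gt_mem_nhds (by linarith))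
  obtain ⟨n, hn⟩ := eventually_atTop.1 h2
  refine ⟨n, ?_⟩
  rintro _ ⟨a, ha, rfl⟩ _ ⟨b, hb, rfl⟩
  have h3 := hn a ha
  have h4 := hn b hb
  have h5 : φ (x a) - φ (x b) = (φ (x a) - φ p) - (φ (x b) - φ p) := by abel
  rw [h5]
  calc ‖(φ (x a) - φ p) - (φ (x b) - φ p)‖ ≤ ‖φ (x a) - φ p‖ + ‖φ (x b) - φ p‖ := norm_sub_le _ _
    _ ≤ ε := by linarith

end Pool.Agent.U570.RQ
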