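import Mathlib
import Pool.Agent.U570.RQ.Stm

/-! Project RQ, package F2 (statement by helper570, proof by helper27). -/

set_option autoImplicit false

open Filter Topology

namespace Pool.Agent.U570.RQ

universe v

theorem F2_inf {C : Type v} [TopologicalSpace C] [T1Space C] {F U : Set C} {x : C}
    (hx : AccPt x (𝓟 F)) (hU : U ∈ 𝓝 x) : (F ∩ U).Infinite := by
  intro hfin
  have h1 : ((F ∩ U) \ {x}).Finite := hfin.subset Set.sdiff_subset
  have h2 : ((F ∩ U) \ {x})ᶜ ∈ 𝓝 x := h1.isClosed.isOpen_compl.mem_nhds (by simp)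
  rw [accPt_iff_frequently] at hx
  obtain ⟨y, ⟨hy1, hy2⟩, hy3, hy4⟩ := (hx.and_eventually (inter_mem hU h2)).exists
  exact hy4 ⟨⟨hy2, hy3⟩, hy1⟩

theorem F2_split {C : Type v} [TopologicalSpace C] [CompactSpace C] [T2Space C] {F : Set C}
    (hF : IsClosed F) {x y : C} (hxy : x ≠ y) (hx : AccPt x (𝓟 F)) (hy : AccPt y (𝓟 F)) :
    ∃ G : Bool → Set C, (∀ b, IsClosed (G b) ∧ (G b).Infinite ∧ G b ⊆ F) ∧
      Disjoint (G true) (G false) := by
  obtain ⟨u, hu, huo, w, hw, hwo, hd⟩ := exists_open_nhds_disjoint_closure hxy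
  refine ⟨fun b => if b then F ∩ closure u else F ∩ closure w, ?_, ?_⟩
  · intro b
    cases b
    · refine ⟨hF.inter isClosed_closure, ?_, Set.inter_subset_left⟩
      exact F2_inf hy (mem_of_superset (hwo.mem_nhds hw) subset_closure)
    · refine ⟨hF.inter isClosed_closure, ?_, Set.inter_subset_left⟩
      exact F2_inf hx (mem_of_superset (huo.mem_nhds hu) subset_closure)
  · exact hd.mono Set.inter_subset_right Set.inter_subset_right

/-- the initial segments of a sequence, in reverse order -/
def F2_seg (x : ℕ → Bool) : ℕ → List Bool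
  | 0 => []
  | n + 1 => x n :: F2_seg x n

theorem F2_seg_length (x : ℕ → Bool) (n : ℕ) : (F2_seg x n).length = n := by
  induction n with
  | zero => rfl
  | succ n ih => show (F2_seg x n).length + 1 = n + 1; rw [ih]

/-- package F2: Cantor scheme -/
theorem t_F2 : S_F2.{v} := by
  classical
  intro C _ _ _ _ hC
  -- the splitting
  have h1 : ∀ F : {F : Set C // IsClosed F ∧ F.Infinite}, ∃ G : Bool → {F : Set C // IsClosed F ∧ F.Infinite},
      (∀ b, (G b).1 ⊆ F.1) ∧ Disjoint (G true).1 (G false).1 := by
    rintro ⟨F, hF, hF2⟩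
    obtain ⟨x, y, hxy, hx, hy⟩ := hC F hF hF2
    obtain ⟨G, hG, hd⟩ := F2_split hF hxy hx hy
    exact ⟨fun b => ⟨G b, (hG b).1, (hG b).2.1⟩, fun b => (hG b).2.2, hd⟩
  choose split hsub hdis using h1
  let F : List Bool → {F : Set C // IsClosed F ∧ F.Infinite} :=
    fun l => l.foldr (fun b X => split X b) ⟨Set.univ, isClosed_univ, Set.infinite_univ⟩
  have hFc : ∀ b l, F (b :: l) = split (F l) b := fun _ _ => rfl
  have hFsub : ∀ b l, (F (b :: l)).1 ⊆ (F l).1 := fun b l => by rw [hFc]; exact hsub _ _
  have huniq : ∀ l l' : List Bool, l.length = l'.length → ∀ d, d ∈ (F l).1 → d ∈ (F l').1 →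
      l = l' := by
    intro l
    induction l with
    | nil =>
      intro l' h d _ _
      cases l' with
      | nil => rfl
      | cons b l' => simp at h
    | cons b l ih =>
      intro l' h d h2 h3
      cases l' with
      | nil => simp at h
      | cons b' l' =>
        have h4 : l = l' := ih l' (by simpa using h) d (hFsub _ _ h2) (hFsub _ _ h3)
        subst h4
        rw [hFc] at h2 h3
        have h5 : b = b' := by
          cases b <;> cases b'
          · rfl
          · exact absurd h2 (Set.disjoint_left.1 (hdis (F l)) h3)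
          · exact absurd h3 (Set.disjoint_left.1 (hdis (F l)) h2)
          · rfl
        rw [h5]
  let A : ℕ → Bool → Set C := fun n b => ⋃ l ∈ {l : List Bool | l.length = n}, (F (b :: l)).1
  have hAc : ∀ n b, IsClosed (A n b) := fun n b =>
    (List.finite_length_eq Bool n).isClosed_biUnion fun l _ => (F (b :: l)).2.1
  have hAd : ∀ n d, d ∈ A n true → d ∈ A n false → False := by
    intro n d h2 h3
    simp only [A, Set.mem_iUnion] at h2 h3
    obtain ⟨l, hl, h2⟩ := h2
    obtain ⟨l', hl', h3⟩ := h3
    have h4 := huniq (true :: l) (false :: l') (by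
      have e1 : l.length = n := hl
      have e2 : l'.length = n := hl'
      simp [e1, e2]) d h2 h3
    simp at h4
  let D : Set C := ⋂ n, (A n true ∪ A n false)
  have hD : IsClosed D := isClosed_iInter fun n => (hAc n true).union (hAc n false)
  refine ⟨D, fun d n => decide (d.1 ∈ A n true), hD, ?_, ?_⟩
  · refine continuous_pi fun n => ?_
    rw [continuous_bool_rng true]
    have e1 : (fun d : D => decide (d.1 ∈ A n true)) ⁻¹' {true} = Subtype.val ⁻¹' A n true := by
      ext d
      simp
    rw [e1]
    refine ⟨(hAc n true).preimage continuous_subtype_val, ?_⟩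
    have e2 : (Subtype.val ⁻¹' A n true : Set D) = (Subtype.val ⁻¹' A n false)ᶜ := by
      ext d
      simp only [Set.mem_preimage, Set.mem_compl_iff]
      constructor
      · intro h2 h3
        exact hAd n _ h2 h3
      · intro h2
        rcases Set.mem_iInter.1 d.2 n with h3 | h3
        · exact h3
        · exact absurd h3 h2
    rw [e2]
    exact ((hAc n false).preimage continuous_subtype_val).isOpen_compl
  · intro x
    obtain ⟨d, hd⟩ := IsCompact.nonempty_iInter_of_sequence_nonempty_isCompact_isClosed
      (fun n => (F (F2_seg x n)).1) (fun n => hFsub _ _) (fun n => (F (F2_seg x n)).2.2.nonempty)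
      (F (F2_seg x 0)).2.1.isCompact (fun n => (F (F2_seg x n)).2.1)
    have h2 : ∀ n, d ∈ A n (x n) := by
      intro n
      have h3 : d ∈ (F (F2_seg x (n + 1))).1 := Set.mem_iInter.1 hd (n + 1)
      simp only [A, Set.mem_iUnion]
      exact ⟨F2_seg x n, F2_seg_length x n, h3⟩
    refine ⟨⟨d, Set.mem_iInter.2 fun n => ?_⟩, ?_⟩
    · have h3 := h2 n
      cases hx : x n
      · rw [hx] at h3
        exact Or.inr h3
      · rw [hx] at h3
        exact Or.inl h3
    · funext n
      have h3 := h2 n
      cases hx : x n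
      · rw [hx] at h3
        simp only [decide_eq_false_iff_not]
        exact fun h4 => hAd n d h4 h3
      · rw [hx] at h3
        simp only [decide_eq_true_eq]
        exact h3

end Pool.Agent.U570.RQ
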