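import Mathlib
import Pool.Agent.U570.RQ.Stm

/-! Project RQ (helper570), package F3 (helper492): spaces which map onto the Cantor space. -/

set_option autoImplicit false

open Filter Topology Pointwise

namespace Pool.Agent.U570.RQ

universe v

theorem F3_cyl_inf (x : ℕ → Bool) (n : ℕ) : (PiNat.cylinder x n).Infinite := by
  refine Set.infinite_of_injective_forall_mem (f := fun k : ℕ => Function.update x (n + k) (!x (n + k))) ?_ ?_
  · intro k k' h
    by_contra hne
    have h1 := congrFun h (n + k)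
    simp only at h1
    rw [Function.update_self, Function.update_of_ne (by omega)] at h1
    cases hx : x (n + k) <;> simp [hx] at h1
  · intro k
    rw [PiNat.mem_cylinder_iff]
    intro i hi
    exact Function.update_of_ne (by omega) _ _

theorem F3_open_inf {U : Set (ℕ → Bool)} (hU : IsOpen U) (hne : U.Nonempty) : U.Infinite := by
  obtain ⟨x, hx⟩ := hne
  obtain ⟨v, ⟨y, n, rfl⟩, -, hv⟩ :=
    (PiNat.isTopologicalBasis_cylinders (fun _ => Bool)).exists_subset_of_mem_open hx hU
  exact (F3_cyl_inf y n).mono hv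

theorem t_F3 : S_F3.{v} := by
  intro D _ _ _ g hg hsurj
  obtain ⟨E, hE, hEs', hEm'⟩ := exists_compact_surjective_zorn_subset
    (X := fun d => ULift.up.{v} (g d)) (continuous_uliftUp.comp hg)
    (fun y => by obtain ⟨d, hd⟩ := hsurj y.down; exact ⟨d, ULift.ext _ _ hd⟩)
  have hEs : g '' E = Set.univ := by
    refine Set.eq_univ_of_forall fun y => ?_
    obtain ⟨d, hd, hdy⟩ : ULift.up.{v} y ∈ (fun d => ULift.up.{v} (g d)) '' E := by
      rw [hEs']; exact Set.mem_univ _
    exact ⟨d, hd, congrArg ULift.down hdy⟩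
  have hEm : ∀ E₀ : Set E, E₀ ≠ Set.univ → IsClosed E₀ → E.domRestrict g '' E₀ ≠ Set.univ := by
    intro E₀ h1 h2 h3
    apply hEm' E₀ h1 h2
    refine Set.eq_univ_of_forall fun y => ?_
    obtain ⟨d, hd, hdy⟩ : y.down ∈ E.domRestrict g '' E₀ := by rw [h3]; exact Set.mem_univ _
    exact ⟨d, hd, ULift.ext _ _ hdy⟩
  set b : Set (Set (ℕ → Bool)) := TopologicalSpace.countableBasis (ℕ → Bool) with hb
  have hbb := TopologicalSpace.isBasis_countableBasis (ℕ → Bool)
  have hbc := TopologicalSpace.countable_countableBasis (ℕ → Bool)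
  have hbn : b.Nonempty := by
    obtain ⟨v, hv, -⟩ := hbb.exists_subset_of_mem_open (Set.mem_univ (fun _ => true)) isOpen_univ
    exact ⟨v, hv⟩
  obtain ⟨U, hU⟩ := hbc.exists_eq_range hbn
  have hUb : ∀ s, U s ∈ b := fun s => by rw [hb, hU]; exact Set.mem_range_self s
  refine ⟨fun s => {d | d ∈ E ∧ g d ∈ U s}, fun s => ?_, fun φ hφ ε hε => ?_⟩
  · have h1 : (U s).Infinite := F3_open_inf (hbb.isOpen (hUb s))
      (TopologicalSpace.nonempty_of_mem_countableBasis (hUb s))
    intro hfin
    apply h1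
    refine (hfin.image g).subset fun y hy => ?_
    obtain ⟨d, hd, rfl⟩ : y ∈ g '' E := by rw [hEs]; exact Set.mem_univ y
    exact ⟨d, ⟨hd, hy⟩, rfl⟩
  · obtain ⟨e, he, -⟩ : (fun _ => true) ∈ g '' E := by rw [hEs]; exact Set.mem_univ _
    set E0 : Set E := {x : E | ε / 2 ≤ ‖φ x - φ e‖} with hE0
    have hcl : IsClosed E0 := by
      have hc : Continuous fun x : E => ‖φ x - φ e‖ :=
        ((hφ.comp continuous_subtype_val).sub continuous_const).norm
      exact isClosed_le continuous_const hc
    have hne : E0 ≠ Set.univ := by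
      intro h
      have h1 : (⟨e, he⟩ : E) ∈ E0 := by rw [h]; exact Set.mem_univ _
      have h2 : ε / 2 ≤ ‖φ e - φ e‖ := h1
      rw [sub_self, norm_zero] at h2
      linarith
    have h3 := hEm E0 hne hcl
    have hcont : Continuous (E.domRestrict g) := hg.comp continuous_subtype_val
    have h4 : IsClosed (E.domRestrict g '' E0) := (hcl.isCompact.image hcont).isClosed
    obtain ⟨y, hy⟩ : ∃ y, y ∉ E.domRestrict g '' E0 := by
      by_contra hcon
      push Not at hcon
      exact h3 (Set.eq_univ_of_forall hcon)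
    obtain ⟨v, hv, hyv, hvs⟩ := hbb.exists_subset_of_mem_open (u := (E.domRestrict g '' E0)ᶜ) hy h4.isOpen_compl
    obtain ⟨s, rfl⟩ : v ∈ Set.range U := by rw [← hU]; exact hv
    refine ⟨s, fun x hx z hz => ?_⟩
    have key : ∀ x, x ∈ E → g x ∈ U s → ‖φ x - φ e‖ ≤ ε / 2 := by
      intro x hxE hxU
      by_contra hcon
      push Not at hcon
      apply hvs hxU
      exact ⟨⟨x, hxE⟩, hcon.le, rfl⟩
    have h5 := key x hx.1 hx.2
    have h6 := key z hz.1 hz.2
    have h7 : φ x - φ z = (φ x - φ e) - (φ z - φ e) := by abel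
    rw [h7]
    refine (norm_sub_le _ _).trans ?_
    linarith

end Pool.Agent.U570.RQ
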