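import Mathlib
import Pool.Agent.U570.RQ.Stm
import Pool.Agent.R821.Duality

/-!
Project RQ (helper570), package GL (helper446): compact subsets are finite if characters of countable
subgroups extend.
-/

set_option autoImplicit false

open Filter Topology Pointwise

namespace Pool.Agent.U570.RQ

universe u v

/-- the subgroup generated by a countable set is countable -/
theorem GL_countable_closure {M : Type v} [AddCommGroup M] {A : Set M} (hA : A.Countable) :
    (AddSubgroup.closure A : Set M).Countable := by
  have : Countable A := hA.to_subtype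
  have h1 : (AddSubgroup.closure A : Set M) ⊆
      Set.range (Finsupp.linearCombination ℤ (Subtype.val : A → M)) := by
    intro x hx
    have h2 : x ∈ Submodule.span ℤ A := by
      rw [← Submodule.mem_toAddSubgroup, Submodule.span_int_eq_addSubgroupClosure]
      exact hx
    rw [← LinearMap.coe_range, Finsupp.range_linearCombination, Subtype.range_coe]
    exact h2
  exact (Set.countable_range _).mono h1

theorem t_GL : S_GL.{u} := by
  intro hSQ hCK A _ _ _ _ hext K hK
  by_contra hinf
  have hinf' : K.Infinite := hinf
  set C0 : Set A := Set.range (fun n : ℕ => ((hinf'.natEmbedding K n : K) : A)) with hC0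
  have hC0K : C0 ⊆ K := by
    rintro _ ⟨n, rfl⟩
    exact (hinf'.natEmbedding K n).2
  have hC0inf : C0.Infinite := by
    apply Set.infinite_range_of_injective
    intro m n h
    exact (hinf'.natEmbedding K).injective (Subtype.ext h)
  have hC0c : C0.Countable := Set.countable_range _
  set D : AddSubgroup A := AddSubgroup.closure C0 with hD
  have hDc : (D : Set A).Countable := GL_countable_closure hC0c
  have hDcl : IsClosed (D : Set A) := by
    rw [← isOpen_compl_iff, isOpen_iff_mem_nhds]
    intro g hg
    obtain ⟨k, hk0, hkg⟩ := Pool.Agent.R821.exists_char_sep D g hg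
    obtain ⟨ψ, hψc, hψ⟩ := hext ((D : Set A) ∪ {g}) (hDc.union (Set.countable_singleton g)) k
    have hopen : IsOpen {x : A | ψ x ≠ 0} := isOpen_ne.preimage hψc
    have hg1 : ψ g ≠ 0 := by
      rw [hψ g (Or.inr rfl)]
      exact hkg
    refine Filter.mem_of_superset (hopen.mem_nhds hg1) ?_
    intro x hx hxD
    apply hx
    rw [hψ x (Or.inl hxD)]
    exact hk0 x hxD
  have hL : IsCompact (K ∩ (D : Set A)) := hK.inter_right hDcl
  have hLc : (K ∩ (D : Set A)).Countable := hDc.mono Set.inter_subset_right
  have hLi : (K ∩ (D : Set A)).Infinite :=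
    hC0inf.mono (fun x hx => ⟨hC0K hx, AddSubgroup.subset_closure hx⟩)
  have i1 : CompactSpace (K ∩ (D : Set A) : Set A) := isCompact_iff_compactSpace.1 hL
  have i2 : Countable (K ∩ (D : Set A) : Set A) := hLc.to_subtype
  have i3 : Infinite (K ∩ (D : Set A) : Set A) := hLi.to_subtype
  obtain ⟨x, p, hne, hlim⟩ := hCK (K ∩ (D : Set A) : Set A)
  have hlim' : Tendsto (fun n => (x n : A)) atTop (𝓝 (p : A)) :=
    (continuous_subtype_val.tendsto p).comp hlim
  have hsub : Tendsto (fun n => (x n : A) - p) atTop (𝓝 0) := by
    have h := hlim'.sub_const (p : A)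
    rwa [sub_self] at h
  refine hSQ A (fun n => (x n : A) - p) (fun n h => hne n (Subtype.ext (sub_eq_zero.1 h))) ?_
  intro χ
  obtain ⟨ψ, hψc, hψ⟩ := hext D hDc χ
  have he : (fun n => χ ((x n : A) - p)) = fun n => ψ ((x n : A) - p) := by
    funext n
    exact (hψ _ (D.sub_mem (x n).2.2 p.2.2)).symm
  rw [he]
  have h := (hψc.tendsto 0).comp hsub
  rw [map_zero] at h
  exact h

end Pool.Agent.U570.RQ
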