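import Mathlib
import Pool.Agent.U570.RQ.Stm

/-! Project RQ, package OX: the product of a Baire space and a second countable Baire space is Baire. -/

set_option autoImplicit false

open Filter Topology Set TopologicalSpace

namespace Pool.Agent.U570.RQ

universe u v

theorem t_OX : S_OX.{u, v} := by
  intro X Y _ _ _ _ _
  refine ⟨fun W hWo hWd => ?_⟩
  -- the countable base of nonempty open sets
  have hcount : (countableBasis Y).Countable := countable_countableBasis Y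
  haveI : Countable (countableBasis Y) := hcount.to_subtype
  let O : ℕ × countableBasis Y → Set X := fun p => Prod.fst '' (W p.1 ∩ (univ ×ˢ (p.2 : Set Y)))
  have hOo : ∀ p, IsOpen (O p) := by
    intro p
    apply isOpenMap_fst
    exact (hWo p.1).inter (isOpen_univ.prod (isOpen_of_mem_countableBasis p.2.2))
  have hOd : ∀ p, Dense (O p) := by
    intro p
    rw [dense_iff_inter_open]
    intro U hU hUne
    have hBne : ((p.2 : Set Y)).Nonempty := nonempty_of_mem_countableBasis p.2.2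
    obtain ⟨⟨x, y⟩, hxy1, hxy2⟩ := (hWd p.1).inter_open_nonempty (U ×ˢ (p.2 : Set Y))
      (hU.prod (isOpen_of_mem_countableBasis p.2.2)) (hUne.prod hBne)
    exact ⟨x, hxy1.1, ⟨(x, y), ⟨hxy2, mem_univ _, hxy1.2⟩, rfl⟩⟩
  have hD := dense_iInter_of_isOpen hOo hOd
  rw [dense_iff_inter_open]
  intro V hV hVne
  obtain ⟨⟨x₀, y₀⟩, h0⟩ := hVne
  obtain ⟨V1, V2, hV1, hV2, hx0, hy0, hsub⟩ := isOpen_prod_iff.1 hV x₀ y₀ h0
  obtain ⟨x, hx1, hx2⟩ := hD.inter_open_nonempty V1 hV1 ⟨x₀, hx0⟩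
  rw [mem_iInter] at hx2
  have hSo : ∀ n, IsOpen {y : Y | (x, y) ∈ W n} := fun n =>
    (hWo n).preimage (Continuous.prodMk continuous_const continuous_id)
  have hSd : ∀ n, Dense {y : Y | (x, y) ∈ W n} := by
    intro n
    rw [(isBasis_countableBasis Y).dense_iff]
    intro B hB hBne
    obtain ⟨⟨x', y⟩, ⟨h1, h2⟩, h3⟩ := hx2 (n, ⟨B, hB⟩)
    have h4 : x' = x := h3
    subst h4
    exact ⟨y, h2.2, h1⟩
  obtain ⟨y, hy1, hy2⟩ := (dense_iInter_of_isOpen_nat hSo hSd).inter_open_nonempty V2 hV2 ⟨y₀, hy0⟩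
  refine ⟨(x, y), hsub ⟨hx1, hy1⟩, ?_⟩
  rw [mem_iInter] at hy2 ⊢
  exact hy2

end Pool.Agent.U570.RQ
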