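import Mathlib
import Pool.Agent.U570.RQ.Stm
import Pool.Agent.R821.BpRefl
import Pool.Agent.R821.Duality

/-!
# Package RF of project RQ: if compact sets in the group and in its dual are finite, a group whose
topology is induced by its continuous characters is reflexive

(written by helper810)
-/

set_option autoImplicit false

open Filter Topology Pointwise

namespace Pool.Agent.U570.RQ

universe u

/-- the circle, additively and multiplicatively -/
noncomputable def RF_e : T ≃ₜ Circle := AddCircle.homeomorphCircle one_ne_zero

theorem RF_e_add (x y : T) : RF_e (x + y) = RF_e x * RF_e y := by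
  simp only [RF_e, AddCircle.homeomorphCircle_apply, AddCircle.toCircle_add]

theorem RF_es_mul (x y : Circle) : RF_e.symm (x * y) = RF_e.symm x + RF_e.symm y := by
  apply RF_e.injective
  rw [RF_e_add, RF_e.apply_symm_apply, RF_e.apply_symm_apply, RF_e.apply_symm_apply]

theorem RF_e_zero : RF_e 0 = 1 := by
  simp [RF_e, AddCircle.homeomorphCircle_apply]

theorem RF_es_one : RF_e.symm 1 = 0 := by
  rw [← RF_e_zero, RF_e.symm_apply_apply]

section Main

variable {G : Type u} [AddCommGroup G] [TopologicalSpace G]

/-- a character with values in the circle gives a character with values in `T` -/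
noncomputable def RF_down (χ : PontryaginDual (Multiplicative G)) : G →+ T :=
  AddMonoidHom.mk' (fun v => RF_e.symm (χ (Multiplicative.ofAdd v))) (fun v w => by
    rw [ofAdd_add, map_mul, RF_es_mul])

theorem RF_down_apply (χ : PontryaginDual (Multiplicative G)) (g : G) :
    RF_down χ g = RF_e.symm (χ (Multiplicative.ofAdd g)) := rfl

theorem RF_down_cont (χ : PontryaginDual (Multiplicative G)) : Continuous (RF_down χ) :=
  RF_e.symm.continuous.comp (χ.continuous_toFun.comp continuous_ofAdd)

/-- a continuous character with values in `T` gives a character with values in the circle -/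
noncomputable def RF_up (χ : G →+ T) (hχ : Continuous χ) : PontryaginDual (Multiplicative G) :=
  { toFun := fun g => RF_e (χ (Multiplicative.toAdd g))
    map_one' := by
      rw [toAdd_one, map_zero, RF_e_zero]
    map_mul' := fun g h => by
      rw [toAdd_mul, map_add, RF_e_add]
    continuous_toFun := RF_e.continuous.comp (hχ.comp continuous_toAdd) }

theorem RF_up_apply (χ : G →+ T) (hχ : Continuous χ) (g : Multiplicative G) :
    RF_up χ hχ g = RF_e (χ (Multiplicative.toAdd g)) := rfl

theorem RF_down_inj : Function.Injective (RF_down (G := G)) := by
  intro χ ψ h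
  ext g
  have h1 : RF_down χ (Multiplicative.toAdd g) = RF_down ψ (Multiplicative.toAdd g) := by rw [h]
  rw [RF_down_apply, RF_down_apply, ofAdd_toAdd] at h1
  exact congrArg _ (RF_e.symm.injective h1)

end Main

theorem t_RF : S_RF.{u} := by
  intro G _ _ _ _ hind hKG hY
  -- compact subsets of `M` are finite
  have hKM : ∀ K : Set (Multiplicative G), IsCompact K → K.Finite := fun K hK => hKG K hK
  have hP := Pool.Agent.R821.Bp.dual_inducing hKM
  have hevc : ∀ g : Multiplicative G,
      Continuous fun χ : PontryaginDual (Multiplicative G) => χ g := fun g =>
    (continuous_apply g).comp hP.continuous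
  -- compact subsets of the dual are finite
  have hKP : ∀ K : Set (PontryaginDual (Multiplicative G)), IsCompact K → K.Finite := by
    intro K hK
    haveI : CompactSpace K := isCompact_iff_compactSpace.1 hK
    have h1 : Finite K := by
      refine hY K (fun y => RF_down y.1) ?_ (fun y => RF_down_cont y.1) (fun g => ?_)
      · intro a b hab
        exact Subtype.ext (RF_down_inj hab)
      · exact RF_e.symm.continuous.comp ((hevc (Multiplicative.ofAdd g)).comp continuous_subtype_val)
    exact Set.toFinite K
  have hPP := Pool.Agent.R821.Bp.dual_inducing hKP
  -- the evaluation map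
  let α : Multiplicative G →* PontryaginDual (PontryaginDual (Multiplicative G)) :=
    { toFun := fun g =>
        { toFun := fun χ => χ g
          map_one' := rfl
          map_mul' := fun _ _ => rfl
          continuous_toFun := hevc g }
      map_one' := by
        ext χ
        exact congrArg _ (map_one χ)
      map_mul' := fun g h => by
        ext χ
        exact congrArg _ (map_mul χ g h) }
  have hα : ∀ g χ, α g χ = χ g := fun g χ => rfl
  have hαinj : Function.Injective α := by
    intro g h hgh
    have h1 : Function.Injective
        (fun (g : G) (χ : {χ : G →+ T // Continuous χ}) => χ.1 g) := hind.injective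
    have h2 : Multiplicative.toAdd g = Multiplicative.toAdd h := by
      apply h1
      funext χ
      have h3 : α g (RF_up χ.1 χ.2) = α h (RF_up χ.1 χ.2) := by rw [hgh]
      rw [hα, hα, RF_up_apply, RF_up_apply] at h3
      exact RF_e.injective h3
    exact h2
  have hαsurj : Function.Surjective α := by
    intro θ
    let ev : G →+ (Additive (PontryaginDual (Multiplicative G)) →+ T) :=
      AddMonoidHom.mk' (fun g => AddMonoidHom.mk'
        (fun χ => RF_e.symm ((Additive.toMul χ) (Multiplicative.ofAdd g)))
        (fun χ ψ => by
          rw [← RF_es_mul]
          rfl))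
        (fun g h => by
          ext χ
          change RF_e.symm ((Additive.toMul χ) (Multiplicative.ofAdd (g + h))) =
            RF_e.symm ((Additive.toMul χ) (Multiplicative.ofAdd g)) +
              RF_e.symm ((Additive.toMul χ) (Multiplicative.ofAdd h))
          rw [ofAdd_add, map_mul, RF_es_mul])
    let v : Additive (PontryaginDual (Multiplicative G)) →+ T :=
      AddMonoidHom.mk' (fun χ => RF_e.symm (θ (Additive.toMul χ)))
        (fun χ ψ => by rw [toMul_add, map_mul, RF_es_mul])
    have hv : Continuous v := RF_e.symm.continuous.comp
      (θ.continuous_toFun.comp continuous_toMul)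
    have hev : IsInducing fun (χ : Additive (PontryaginDual (Multiplicative G))) (g : G) =>
        ev g χ := by
      have h1 : IsInducing fun (χ : PontryaginDual (Multiplicative G)) (g : G) =>
          RF_e.symm (χ (Multiplicative.ofAdd g)) := by
        have h2 : IsInducing (fun (f : Multiplicative G → Circle) (g : G) =>
            RF_e.symm (f (Multiplicative.ofAdd g))) := by
          have h3 : IsInducing (fun (f : G → Circle) (g : G) => RF_e.symm (f g)) :=
            (Homeomorph.piCongrRight fun _ : G => RF_e.symm).isInducing
          exact h3
        exact h2.comp hP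
      exact h1
    obtain ⟨g, hg⟩ := Pool.Agent.R821.char_of_continuous ev hev v hv
    refine ⟨Multiplicative.ofAdd g, ?_⟩
    ext χ
    have h1 : ev g (Additive.ofMul χ) = v (Additive.ofMul χ) := by rw [hg]
    have h2 : RF_e.symm (χ (Multiplicative.ofAdd g)) = RF_e.symm (θ χ) := h1
    rw [hα]
    exact congrArg _ (RF_e.symm.injective h2)
  have hαind : IsInducing α := by
    rw [← hPP.of_comp_iff]
    have hf : Continuous ((fun (χ : PontryaginDual (PontryaginDual (Multiplicative G)))
        (a : PontryaginDual (Multiplicative G)) => χ a) ∘ α) :=
      continuous_pi fun χ => χ.continuous_toFun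
    have hg : Continuous (fun (f : PontryaginDual (Multiplicative G) → Circle)
        (χ : {χ : G →+ T // Continuous χ}) => RF_e.symm (f (RF_up χ.1 χ.2))) :=
      continuous_pi fun χ => RF_e.symm.continuous.comp (continuous_apply _)
    refine IsInducing.of_comp hf hg ?_
    have h1 : ((fun (f : PontryaginDual (Multiplicative G) → Circle)
        (χ : {χ : G →+ T // Continuous χ}) => RF_e.symm (f (RF_up χ.1 χ.2))) ∘
        ((fun (χ : PontryaginDual (PontryaginDual (Multiplicative G)))
        (a : PontryaginDual (Multiplicative G)) => χ a) ∘ α)) =
        fun (g : Multiplicative G) (χ : {χ : G →+ T // Continuous χ}) =>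
          χ.1 (Multiplicative.toAdd g) := by
      funext g χ
      exact RF_e.symm_apply_apply _
    rw [h1]
    exact hind
  let E : Multiplicative G ≃* PontryaginDual (PontryaginDual (Multiplicative G)) :=
    MulEquiv.ofBijective α ⟨hαinj, hαsurj⟩
  refine ⟨{ toMulEquiv := E
            continuous_toFun := hαind.continuous
            continuous_invFun := ?_ }, fun g χ => rfl⟩
  rw [hαind.continuous_iff]
  have : (α ∘ E.invFun) = id := by
    funext θ
    exact E.apply_symm_apply θ
  rw [this]
  exact continuous_id

end Pool.Agent.U570.RQ
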