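import Mathlib
import Pool.Agent.U570.RQ.Stm
import Pool.Agent.R821.Duality

/-!
Project RQ, package SQ: no sequence of nonzero elements of an abelian group tends to zero at all
characters.
-/

set_option autoImplicit false

open Filter Topology MeasureTheory

namespace Pool.Agent.U570.RQ

universe u

open Pool.Agent.R821 (homSub isClosed_homSub exists_char_ne_zero cc cc_apply)

/-- evaluation at `x` -/
def SQ_ev {A : Type u} [AddCommGroup A] (x : A) : homSub A →+ T where
  toFun h := (h : A → T) x
  map_zero' := rfl
  map_add' _ _ := rfl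

theorem SQ_cont {A : Type u} [AddCommGroup A] (x : A) : Continuous (SQ_ev x) :=
  (continuous_apply x).comp continuous_subtype_val

theorem t_SQ : S_SQ.{u} := by
  intro A _ y hy hlim
  have hcomp : CompactSpace (homSub A) :=
    isCompact_iff_compactSpace.1 (isClosed_homSub A).isCompact
  let _ : MeasurableSpace (homSub A) := borel _
  have : BorelSpace (homSub A) := ⟨rfl⟩
  let μ : Measure (homSub A) := Measure.addHaarMeasure ⊤
  have hμ1 : μ Set.univ = 1 := by
    have := Measure.addHaarMeasure_self (K₀ := (⊤ : TopologicalSpace.PositiveCompacts (homSub A)))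
    simpa using this
  have hprob : IsProbabilityMeasure μ := ⟨hμ1⟩
  have hinv : μ.IsAddLeftInvariant := inferInstance
  have hint : ∀ x : A, Integrable (fun h : homSub A => cc (SQ_ev x) (SQ_cont x) h) μ := by
    intro x
    have hcont : Continuous fun h : homSub A => cc (SQ_ev x) (SQ_cont x) h :=
      (cc (SQ_ev x) (SQ_cont x)).continuous
    exact hcont.integrable_of_hasCompactSupport (HasCompactSupport.of_compactSpace _)
  have h0 : ∀ x : A, x ≠ 0 → ∫ h : homSub A, cc (SQ_ev x) (SQ_cont x) h ∂μ = 0 := by
    intro x hx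
    obtain ⟨k, hk⟩ := exists_char_ne_zero x hx
    let k' : homSub A := ⟨k, fun a b => map_add k a b⟩
    have h3 : ∫ h : homSub A, cc (SQ_ev x) (SQ_cont x) (k' + h) ∂μ =
        ∫ h : homSub A, cc (SQ_ev x) (SQ_cont x) h ∂μ :=
      integral_add_left_eq_self (μ := μ) (fun h : homSub A => cc (SQ_ev x) (SQ_cont x) h) k'
    have h4 : ∫ h : homSub A, cc (SQ_ev x) (SQ_cont x) (k' + h) ∂μ =
        cc (SQ_ev x) (SQ_cont x) k' * ∫ h : homSub A, cc (SQ_ev x) (SQ_cont x) h ∂μ := by
      rw [← integral_const_mul]
      refine integral_congr_ae (Filter.Eventually.of_forall fun h => ?_)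
      simp [cc_apply, AddCircle.toCircle_add]
    rw [h4] at h3
    have h5 : (cc (SQ_ev x) (SQ_cont x) k' - 1) *
        ∫ h : homSub A, cc (SQ_ev x) (SQ_cont x) h ∂μ = 0 := by
      rw [sub_mul, h3, one_mul, sub_self]
    rcases mul_eq_zero.1 h5 with h6 | h6
    · exfalso
      apply hk
      have h7 : cc (SQ_ev x) (SQ_cont x) k' = 1 := sub_eq_zero.1 h6
      rw [cc_apply] at h7
      have h8 : AddCircle.toCircle (SQ_ev x k') = AddCircle.toCircle (0 : T) := by
        refine Circle.ext ?_
        rw [h7]; simp
      exact AddCircle.injective_toCircle one_ne_zero h8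
    · exact h6
  have h1 : Tendsto (fun n => ∫ h : homSub A, cc (SQ_ev (y n)) (SQ_cont (y n)) h ∂μ) atTop
      (𝓝 (∫ _ : homSub A, (1 : ℂ) ∂μ)) := by
    apply tendsto_integral_of_dominated_convergence (fun _ => (1 : ℝ))
    · intro n
      exact (hint _).aestronglyMeasurable
    · exact integrable_const _
    · intro n
      refine Filter.Eventually.of_forall fun h => ?_
      exact (Circle.norm_coe (AddCircle.toCircle (SQ_ev (y n) h))).le
    · refine Filter.Eventually.of_forall fun h => ?_
      have h2 := hlim (AddMonoidHom.mk' (h : A → T) h.2)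
      have h3 : Continuous fun t : T => (AddCircle.toCircle t : ℂ) := by fun_prop
      have h4 := (h3.tendsto 0).comp h2
      simp only [AddCircle.toCircle_zero, Circle.coe_one] at h4
      exact h4
  simp only [h0 _ (hy _)] at h1
  have h2 := tendsto_nhds_unique h1 tendsto_const_nhds
  rw [integral_const, probReal_univ] at h2
  simp at h2

end Pool.Agent.U570.RQ
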