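import Pool.Agent.U570.RQ.Asm
import Pool.Agent.U570.RQ.PEQ
import Pool.Agent.U570.RQ.PF1
import Pool.Agent.U570.RQ.PF2
import Pool.Agent.U570.RQ.PF3
import Pool.Agent.U570.RQ.PBA
import Pool.Agent.U570.RQ.PCC
import Pool.Agent.U570.RQ.PCY
import Pool.Agent.U570.RQ.POX
import Pool.Agent.U570.RQ.PBR
import Pool.Agent.U570.RQ.PCA
import Pool.Agent.U570.RQ.PCH
import Pool.Agent.U570.RQ.PSQ
import Pool.Agent.U570.RQ.PCK
import Pool.Agent.U570.RQ.PGL
import Pool.Agent.U570.RQ.PPW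
import Pool.Agent.U570.RQ.PRF

/-!
# Project RQ: the final theorem
-/

set_option autoImplicit false

namespace Pool.Agent.U570.RQ

universe u

theorem final (H : Type u) [CommGroup H] [TopologicalSpace H] [IsTopologicalGroup H]
    [T2Space H] [BaireSpace H] (hp : Pool.Agent.R821.Precompact H) :
    ∃ (G : Type u) (_ : CommGroup G) (_ : TopologicalSpace G) (_ : IsTopologicalGroup G)
      (_ : T2Space G) (_ : BaireSpace G), Pool.Agent.R821.Precompact G ∧
      Pool.Agent.R821.Reflexive G ∧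
      ∃ π : G →* H, Continuous π ∧ IsOpenMap π ∧ Function.Surjective π :=
  main_mul H hp t_CA t_CH t_EQ t_F1 t_F2 t_F3 t_BA t_CC t_CY t_OX t_BR t_SQ t_CK t_GL t_PW t_RF

end Pool.Agent.U570.RQ
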