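import Pool.Agent.U570.RQ.Stm
import Pool.Agent.R821.BohrBoolean
import Pool.Agent.R821.Duality
import Pool.Agent.R821.Precompact

/-!
# Project RQ: assembly
-/

set_option autoImplicit false

open Filter Topology Pointwise

namespace Pool.Agent.U570.RQ

universe u v w

theorem fine_all (h1 : S_F1.{v}) (h2 : S_F2.{v}) (h3 : S_F3.{v}) (C : Type v) [TopologicalSpace C]
    [CompactSpace C] [T2Space C] [Infinite C] : Fine C := by
  by_cases h : ∀ F : Set C, IsClosed F → F.Infinite →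
      ∃ x y : C, x ≠ y ∧ AccPt x (𝓟 F) ∧ AccPt y (𝓟 F)
  · obtain ⟨D, g, hD, hg, hs⟩ := h2 C h
    have : CompactSpace D := isCompact_iff_compactSpace.1 hD.isCompact
    obtain ⟨V, hV, hφ⟩ := h3 D g hg hs
    refine ⟨fun s => Subtype.val '' V s, fun s => (hV s).image Subtype.val_injective.injOn, ?_⟩
    intro φ hφc ε hε
    obtain ⟨s, hs⟩ := hφ (fun d => φ d) (hφc.comp continuous_subtype_val) ε hε
    refine ⟨s, ?_⟩
    rintro _ ⟨x, hx, rfl⟩ _ ⟨y, hy, rfl⟩
    exact hs x hx y hy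
  · push Not at h
    obtain ⟨F, hF, hinf, hacc⟩ := h
    exact h1 C F hF hinf (fun x y hx hy => by_contra fun hne => hacc x y hne hx hy)

section

variable {H A J : Type u} [AddCommGroup H] [TopologicalSpace H] [IsTopologicalAddGroup H]
  [T2Space H] [AddCommGroup A] (π : A →+ H) (f : J → (A →+ T))

/-- the diagonal map -/
def iota : A →+ H × (J → T) :=
  AddMonoidHom.mk' (fun a => (π a, fun j => f j a)) (fun a b => by
    ext1
    · simp
    · funext j
      simp)

theorem iota_apply (a : A) : iota π f a = (π a, fun j => f j a) := rfl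

/-- the characters of `H` together with the coordinates -/
def iota2 (H J : Type u) [AddCommGroup H] [TopologicalSpace H] :
    H × (J → T) →+ ({χ : H →+ T // Continuous χ} → T) × (J → T) :=
  AddMonoidHom.mk' (fun p => (fun χ => χ.1 p.1, p.2)) (fun a b => by
    ext1
    · funext j
      simp
    · rfl)

theorem iota2_inducing (hPW : S_PW.{u}) (hTB : TB H) : IsInducing (iota2 H J) :=
  (hPW H hTB).prodMap IsInducing.id

theorem tb_prod (hPW : S_PW.{u}) (hTB : TB H) : TB (H × (J → T)) := by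
  intro U hU
  exact Pool.Agent.R821.totBdd_of_inducing (iota2 H J) (iota2_inducing hPW hTB) U hU

theorem tb_A [TopologicalSpace A] (hind : IsInducing (iota π f)) (hPW : S_PW.{u}) (hTB : TB H) :
    TB A := by
  intro U hU
  exact Pool.Agent.R821.totBdd_of_inducing ((iota2 H J).comp (iota π f))
    ((iota2_inducing hPW hTB).comp hind) U hU

theorem t2_A [TopologicalSpace A] (hind : IsInducing (iota π f)) (hF : Full f) : T2Space A := by
  refine (⟨hind, ?_⟩ : IsEmbedding (iota π f)).t2Space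
  intro a b hab
  by_contra hne
  obtain ⟨χ, hχ⟩ := Pool.Agent.R821.exists_char_ne_zero (a - b) (sub_ne_zero.2 hne)
  obtain ⟨j, hj⟩ := hF {a - b} (Set.countable_singleton _) χ
  apply hχ
  rw [← hj _ rfl, map_sub, sub_eq_zero]
  exact congrFun (congrArg Prod.snd hab) j

theorem open_A [TopologicalSpace A] (hind : IsInducing (iota π f)) (hR : Rich π f) :
    IsOpenMap π := by
  classical
  rw [isOpenMap_iff_nhds_le]
  intro a
  rw [hind.nhds_eq_comap, iota_apply, nhds_prod_eq]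
  intro V hV
  rw [Filter.mem_map, Filter.mem_comap] at hV
  obtain ⟨W, hW, hWV⟩ := hV
  obtain ⟨O, hO, W2, hW2, hOW⟩ := Filter.mem_prod_iff.1 hW
  rw [nhds_pi, Filter.mem_pi] at hW2
  obtain ⟨I, hI, s, hs, hst⟩ := hW2
  refine mem_of_superset hO fun h hh => ?_
  obtain ⟨a', ha', hfa⟩ := hR I hI.countable (fun j => f j a) h
  have h1 : a' ∈ π ⁻¹' V := by
    apply hWV
    apply hOW
    refine ⟨?_, ?_⟩
    · change π a' ∈ O
      rw [ha']
      exact hh
    · apply hst
      intro j hj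
      change f j a' ∈ s j
      rw [hfa j hj]
      exact mem_of_mem_nhds (hs j)
  have h2 : π a' ∈ V := h1
  rwa [ha'] at h2

theorem surj_A (hR : Rich π f) : Function.Surjective π := by
  intro h
  obtain ⟨a, ha, -⟩ := hR ∅ Set.countable_empty (fun _ => 0) h
  exact ⟨a, ha⟩

theorem gen [BaireSpace H] [TopologicalSpace A] (hind : IsInducing (iota π f)) (hR : Rich π f)
    (hF : Full f) (hTB : TB H)
    (hEQ : S_EQ.{u, u}) (hF1 : S_F1.{u}) (hF2 : S_F2.{u}) (hF3 : S_F3.{u}) (hBA : S_BA.{u, u})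
    (hCC : S_CC.{u}) (hCY : S_CY.{u, u}) (hOX : S_OX.{u, u}) (hBR : S_BR.{u, u})
    (hSQ : S_SQ.{u}) (hCK : S_CK.{u}) (hGL : S_GL.{u}) (hPW : S_PW.{u}) (hRF : S_RF.{u}) :
    IsTopologicalAddGroup A ∧ T2Space A ∧ BaireSpace A ∧ TB A ∧ Refl (Multiplicative A) ∧
      Continuous π ∧ IsOpenMap π ∧ Function.Surjective π := by
  have htg : IsTopologicalAddGroup A := by
    have h1 := topologicalAddGroup_induced (iota π f)
    rw [← hind.eq_induced] at h1
    exact h1
  have ht2 : T2Space A := t2_A π f hind hF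
  have hccc : CCC (H × (J → T)) := hCC _ (tb_prod hPW hTB)
  have hB : BaireSpace A := hBR hCY hOX A H J π f hind hR hccc
  have hTBA : TB A := tb_A π f hind hPW hTB
  have hcf : ∀ j, Continuous (f j) := fun j =>
    (continuous_apply j).comp (continuous_snd.comp hind.continuous)
  have hKA : ∀ K : Set A, IsCompact K → K.Finite := by
    refine hGL hSQ hCK A ?_
    intro C hC χ
    obtain ⟨j, hj⟩ := hF C hC χ
    exact ⟨f j, hcf j, hj⟩
  have hKX : ∀ (Y : Type u) [TopologicalSpace Y] [CompactSpace Y] [T2Space Y] (χ : Y → (A →+ T)),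
      Function.Injective χ → (∀ y, Continuous (χ y)) → (∀ g, Continuous fun y => χ y g) →
        Finite Y := by
    intro Y _ _ _ χ hχ hc he
    exact hBA (fun C _ _ _ _ => fine_all hF1 hF2 hF3 C) hEQ A hTBA Y χ hχ hc he
  refine ⟨htg, ht2, hB, hTBA, hRF A (hPW A hTBA) hKA hKX, ?_, open_A π f hind hR, surj_A π f hR⟩
  exact continuous_fst.comp hind.continuous

end

theorem main_add (H : Type u) [AddCommGroup H] [TopologicalSpace H] [IsTopologicalAddGroup H]
    [T2Space H] [BaireSpace H] (hTB : TB H)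
    (hCA : S_CA.{u}) (hCH : S_CH.{u})
    (hEQ : S_EQ.{u, u}) (hF1 : S_F1.{u}) (hF2 : S_F2.{u}) (hF3 : S_F3.{u}) (hBA : S_BA.{u, u})
    (hCC : S_CC.{u}) (hCY : S_CY.{u, u}) (hOX : S_OX.{u, u}) (hBR : S_BR.{u, u})
    (hSQ : S_SQ.{u}) (hCK : S_CK.{u}) (hGL : S_GL.{u}) (hPW : S_PW.{u}) (hRF : S_RF.{u}) :
    ∃ (A : Type u) (_ : AddCommGroup A) (_ : TopologicalSpace A) (_ : IsTopologicalAddGroup A)
      (_ : T2Space A) (_ : BaireSpace A), TB A ∧ Refl (Multiplicative A) ∧
      ∃ π : A →+ H, Continuous π ∧ IsOpenMap π ∧ Function.Surjective π := by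
  obtain ⟨E, π, f, hR, hF⟩ := hCH hCA H
  let τ : TopologicalSpace (E →₀ ℤ) := TopologicalSpace.induced (iota π f) inferInstance
  have hind : @IsInducing _ _ τ _ (iota π f) := ⟨rfl⟩
  obtain ⟨h1, h2, h3, h4, h5, h6, h7, h8⟩ := gen π f hind hR hF hTB hEQ hF1 hF2 hF3 hBA hCC hCY hOX
    hBR hSQ hCK hGL hPW hRF
  exact ⟨E →₀ ℤ, inferInstance, τ, h1, h2, h3, h4, h5, π, h6, h7, h8⟩

theorem main_mul (H : Type u) [CommGroup H] [TopologicalSpace H] [IsTopologicalGroup H]
    [T2Space H] [BaireSpace H] (hp : Pool.Agent.R821.Precompact H)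
    (hCA : S_CA.{u}) (hCH : S_CH.{u})
    (hEQ : S_EQ.{u, u}) (hF1 : S_F1.{u}) (hF2 : S_F2.{u}) (hF3 : S_F3.{u}) (hBA : S_BA.{u, u})
    (hCC : S_CC.{u}) (hCY : S_CY.{u, u}) (hOX : S_OX.{u, u}) (hBR : S_BR.{u, u})
    (hSQ : S_SQ.{u}) (hCK : S_CK.{u}) (hGL : S_GL.{u}) (hPW : S_PW.{u}) (hRF : S_RF.{u}) :
    ∃ (G : Type u) (_ : CommGroup G) (_ : TopologicalSpace G) (_ : IsTopologicalGroup G)
      (_ : T2Space G) (_ : BaireSpace G), Pool.Agent.R821.Precompact G ∧
      Pool.Agent.R821.Reflexive G ∧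
      ∃ π : G →* H, Continuous π ∧ IsOpenMap π ∧ Function.Surjective π := by
  have hT2 : T2Space (Additive H) := ‹T2Space H›
  have hBs : BaireSpace (Additive H) := ‹BaireSpace H›
  have hTB : TB (Additive H) := by
    intro U hU
    obtain ⟨F, hF, hFU⟩ := hp (Additive.ofMul ⁻¹' U) hU
    refine ⟨Additive.toMul ⁻¹' F, hF.preimage Additive.toMul.injective.injOn, ?_⟩
    refine Set.eq_univ_of_forall fun x => ?_
    have hx : Additive.toMul x ∈ F * (Additive.ofMul ⁻¹' U) := by rw [hFU]; trivial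
    obtain ⟨e, he, u, hu, hue⟩ := hx
    refine ⟨Additive.ofMul u, hu, Additive.ofMul e, he, ?_⟩
    change Additive.ofMul u + Additive.ofMul e = x
    rw [← ofMul_mul, mul_comm, show e * u = Additive.toMul x from hue]
    rfl
  obtain ⟨A, i1, i2, i3, i4, i5, h1, h2, π, h3, h4, h5⟩ := main_add (Additive H) hTB hCA hCH hEQ
    hF1 hF2 hF3 hBA hCC hCY hOX hBR hSQ hCK hGL hPW hRF
  have hT2' : T2Space (Multiplicative A) := i4
  have hBs' : BaireSpace (Multiplicative A) := i5
  refine ⟨Multiplicative A, inferInstance, inferInstance, inferInstance, hT2', hBs', ?_, h2, ?_⟩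
  · intro U hU
    obtain ⟨E, hE, hEU⟩ := h1 (Multiplicative.ofAdd ⁻¹' U) hU
    refine ⟨Multiplicative.toAdd ⁻¹' E, hE.preimage Multiplicative.toAdd.injective.injOn, ?_⟩
    refine Set.eq_univ_of_forall fun x => ?_
    have hx : Multiplicative.toAdd x ∈ (Multiplicative.ofAdd ⁻¹' U : Set A) + E := by
      rw [hEU]; trivial
    obtain ⟨u, hu, e, he, hue⟩ := hx
    refine ⟨Multiplicative.ofAdd e, he, Multiplicative.ofAdd u, hu, ?_⟩
    change Multiplicative.ofAdd e * Multiplicative.ofAdd u = x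
    rw [← ofAdd_add, add_comm, show u + e = Multiplicative.toAdd x from hue]
    rfl
  · refine ⟨AddMonoidHom.toMultiplicativeLeft π, h3, h4, h5⟩

end Pool.Agent.U570.RQ
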