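import Mathlib
import Pool.Agent.U570.RQ.Stm
import Pool.Agent.TH264.Bridge.PW

/-!
# Project RQ, package PW (helper438): the topology of a totally bounded Hausdorff abelian group is induced by
its continuous characters
-/

set_option autoImplicit false

open Filter Topology Pointwise

namespace Pool.Agent.U570.RQ

universe u

/-- characters with values in the circle as characters with values in `T` -/
theorem PW_char {K : Type u} [AddCommGroup K] [TopologicalSpace K] (χ : Multiplicative K →* Circle)
    (hχ : Continuous χ) : ∃ ψ : K →+ T, Continuous ψ ∧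
      ∀ k : K, ψ k = 0 → χ (Multiplicative.ofAdd k) = 1 := by
  let e : T ≃ₜ Circle := AddCircle.homeomorphCircle one_ne_zero
  have he : ∀ x y : T, e (x + y) = e x * e y := fun x y => by
    simp only [e, AddCircle.homeomorphCircle_apply, AddCircle.toCircle_add]
  have he' : ∀ x y : Circle, e.symm (x * y) = e.symm x + e.symm y := by
    intro x y
    apply e.injective
    rw [he, e.apply_symm_apply, e.apply_symm_apply, e.apply_symm_apply]
  let ψ : K →+ T := AddMonoidHom.mk' (fun v => e.symm (χ (Multiplicative.ofAdd v))) (fun v w => by
    rw [ofAdd_add, map_mul, he'])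
  have hψ : Continuous ψ := e.symm.continuous.comp hχ
  refine ⟨ψ, hψ, fun k hk => ?_⟩
  have h3 : χ (Multiplicative.ofAdd k) = e 0 := by
    rw [← hk]
    exact (e.apply_symm_apply _).symm
  rw [h3]
  simp [e, AddCircle.homeomorphCircle_apply]

/-- the characters of a compact abelian group embed it into a power of the circle -/
theorem PW_compact (K : Type u) [AddCommGroup K] [TopologicalSpace K] [IsTopologicalAddGroup K]
    [CompactSpace K] [T2Space K] :
    IsInducing (fun (k : K) (χ : {χ : K →+ T // Continuous χ}) => χ.1 k) := by
  have hc : Continuous (fun (k : K) (χ : {χ : K →+ T // Continuous χ}) => χ.1 k) :=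
    continuous_pi fun χ => χ.2
  have hi : Function.Injective (fun (k : K) (χ : {χ : K →+ T // Continuous χ}) => χ.1 k) := by
    intro k k' h
    by_contra hne
    have hT2' : T2Space (Multiplicative K) := ‹T2Space K›
    have hK' : CompactSpace (Multiplicative K) := ‹CompactSpace K›
    have hne' : k - k' ≠ 0 := sub_ne_zero.2 hne
    obtain ⟨χ, hχ, hχa⟩ := Pool.Agent.TH264.Bridge.char_sep_mul (Multiplicative K)
      (Multiplicative.ofAdd (k - k')) (fun h0 => hne' (Multiplicative.ofAdd.injective h0))
    obtain ⟨ψ, hψ, hψ2⟩ := PW_char χ hχ
    apply hχa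
    apply hψ2
    have h1 := congrFun h ⟨ψ, hψ⟩
    change ψ k = ψ k' at h1
    rw [map_sub, h1, sub_self]
  exact (hc.isClosedEmbedding hi).isInducing

/-- the topology of a totally bounded Hausdorff abelian group is induced by its continuous characters -/
theorem t_PW : S_PW.{u} := by
  intro G _ _ _ _ hTB
  let _ : UniformSpace G := IsTopologicalAddGroup.rightUniformSpace G
  have hu : IsUniformAddGroup G := isUniformAddGroup_of_addCommGroup
  have htb : TotallyBounded (Set.univ : Set G) := by
    rw [totallyBounded_iff_subset_finite_iUnion_nhds_zero]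
    intro U hU
    obtain ⟨E, hE, hUE⟩ := hTB U hU
    refine ⟨E, hE, fun y _ => ?_⟩
    have hy : y ∈ U + E := by rw [hUE]; exact Set.mem_univ y
    obtain ⟨a, ha, b, hb, rfl⟩ := Set.mem_add.1 hy
    refine Set.mem_biUnion hb ?_
    refine Set.mem_vadd_set.2 ⟨a, ha, ?_⟩
    rw [vadd_eq_add, add_comm]
  let K := UniformSpace.Completion G
  have hK : CompactSpace K := by
    refine ⟨isCompact_iff_totallyBounded_isComplete.2 ⟨?_, isComplete_univ⟩⟩
    have h1 := (htb.image (UniformSpace.Completion.uniformContinuous_coe G)).closure
    rw [Set.image_univ] at h1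
    rw [← UniformSpace.Completion.denseRange_coe.closure_range]
    exact h1
  have hTK : IsTopologicalAddGroup K := inferInstance
  have hT2 : T2Space K := inferInstance
  have h1 := PW_compact K
  have h2 : IsInducing (fun g : G => (g : K)) :=
    (UniformSpace.Completion.isUniformInducing_coe G).isInducing
  have h3 := h1.comp h2
  let j : G →+ K := { toFun := fun v => (v : K), map_zero' := UniformSpace.Completion.coe_zero,
                      map_add' := UniformSpace.Completion.coe_add }
  have hj : Continuous j := UniformSpace.Completion.continuous_coe G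
  let R : ({χ : G →+ T // Continuous χ} → T) → ({χ : K →+ T // Continuous χ} → T) :=
    fun x χ => x ⟨χ.1.comp j, χ.2.comp hj⟩
  have hR : Continuous R := continuous_pi fun χ => continuous_apply _
  have hF : Continuous (fun (g : G) (χ : {χ : G →+ T // Continuous χ}) => χ.1 g) :=
    continuous_pi fun χ => χ.2
  exact Topology.IsInducing.of_comp hF hR h3

end Pool.Agent.U570.RQ
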